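import Pool.Agent.Q145.SZ.Stm

/-!
# The local factors of the singular series
-/

set_option autoImplicit false

namespace Pool.Agent.Q261.SZ

open Finset Filter
open Pool.Agent.Q145.SZ

theorem nu_le {K : ℕ} (s : Fin K → ℕ) (p : ℕ) : nu s p ≤ K := by
  unfold nu
  refine card_image_le.trans ?_
  rw [card_univ, Fintype.card_fin]

/-- `log (1 - x) ≤ -x` and `≥ -x - 2x²` -/
theorem log_bds {x : ℝ} (h0 : 0 ≤ x) (h1 : x ≤ 1 / 2) :
    Real.log (1 - x) ≤ -x ∧ -x - 2 * x ^ 2 ≤ Real.log (1 - x) := by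
  have hpos : 0 < 1 - x := by linarith
  constructor
  · have := Real.log_le_sub_one_of_pos hpos
    linarith
  · have h := Real.one_sub_inv_le_log_of_pos hpos
    refine le_trans ?_ h
    have h2 : (1 - x)⁻¹ ≤ 1 + x + 2 * x ^ 2 := by
      rw [inv_le_iff_one_le_mul₀ hpos]
      nlinarith [sq_nonneg x]
    linarith

/-- the factor is positive and its logarithm is small -/
theorem log_loc {K : ℕ} (s : Fin K → ℕ) {p : ℕ} (hp : 2 ≤ p) (hK : 2 * K ≤ p) (hnu : nu s p < p) :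
    0 < loc s p ∧ |Real.log (loc s p)| ≤ ((K : ℝ) - nu s p) / p + 2 * (K : ℝ) ^ 2 / (p : ℝ) ^ 2 := by
  have hp0 : (0 : ℝ) < p := by exact_mod_cast (show 0 < p by omega)
  have hp2 : (2 : ℝ) ≤ p := by exact_mod_cast hp
  have hνK : (nu s p : ℝ) ≤ K := by exact_mod_cast nu_le s p
  have hν0 : (0 : ℝ) ≤ nu s p := Nat.cast_nonneg _
  have hKp : 2 * (K : ℝ) ≤ p := by exact_mod_cast hK
  have hx1 : (nu s p : ℝ) / p ≤ 1 / 2 := by
    rw [div_le_div_iff₀ hp0 two_pos]
    linarith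
  have hx0 : 0 ≤ (nu s p : ℝ) / p := by positivity
  have hy1 : 1 / (p : ℝ) ≤ 1 / 2 := by
    rw [div_le_div_iff₀ hp0 two_pos]
    linarith
  have hy0 : 0 ≤ 1 / (p : ℝ) := by positivity
  have h1 : 0 < 1 - (nu s p : ℝ) / p := by linarith
  have h2 : 0 < 1 - 1 / (p : ℝ) := by linarith
  have hpos : 0 < loc s p := by
    unfold loc
    positivity
  refine ⟨hpos, ?_⟩
  have hlog : Real.log (loc s p) = Real.log (1 - (nu s p : ℝ) / p) - K * Real.log (1 - 1 / (p : ℝ)) := by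
    unfold loc
    rw [Real.log_div h1.ne' (pow_pos h2 K).ne', Real.log_pow]
  obtain ⟨ha, hb⟩ := log_bds hx0 hx1
  obtain ⟨hc, hd⟩ := log_bds hy0 hy1
  have hK0 : (0 : ℝ) ≤ K := Nat.cast_nonneg _
  have e1 : (K : ℝ) * Real.log (1 - 1 / (p : ℝ)) ≤ K * (-(1 / (p : ℝ))) := by gcongr
  have e2 : (K : ℝ) * (-(1 / (p : ℝ)) - 2 * (1 / (p : ℝ)) ^ 2) ≤
      K * Real.log (1 - 1 / (p : ℝ)) := by gcongr
  have e3 : (K : ℝ) ≤ (K : ℝ) ^ 2 := by
    have : K ≤ K ^ 2 := by nlinarith [Nat.zero_le K]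
    exact_mod_cast this
  have e4 : (K : ℝ) * (2 * (1 / (p : ℝ)) ^ 2) ≤ 2 * (K : ℝ) ^ 2 / (p : ℝ) ^ 2 := by
    rw [one_div, inv_pow, ← div_eq_mul_inv, mul_div_assoc', div_le_div_iff_of_pos_right (by positivity)]
    linarith
  have e5 : 2 * ((nu s p : ℝ) / p) ^ 2 ≤ 2 * (K : ℝ) ^ 2 / (p : ℝ) ^ 2 := by
    rw [div_pow, mul_div_assoc', div_le_div_iff_of_pos_right (by positivity)]
    gcongr
  have e6 : ((K : ℝ) - nu s p) / p = K * (1 / (p : ℝ)) - (nu s p : ℝ) / p := by ring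
  have e7 : 0 ≤ ((K : ℝ) - nu s p) / p := div_nonneg (by linarith) hp0.le
  rw [hlog, abs_le]
  constructor
  · linarith
  · linarith

/-- the number of collisions -/
theorem collide {K : ℕ} (s : Fin K → ℕ) (p : ℕ) :
    K ≤ nu s p + ((univ : Finset (Fin K × Fin K)).filter
      fun q => q.1 ≠ q.2 ∧ s q.1 % p = s q.2 % p).card := by
  classical
  set f : Fin K → ℕ := fun i => s i % p with hf
  have h1 : ((univ : Finset (Fin K)).filter fun i => ∀ j < i, f j ≠ f i).card ≤ nu s p := by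
    unfold nu
    refine card_le_card_of_injOn f (fun i _ => mem_coe.2 (mem_image_of_mem f (mem_univ i))) ?_
    intro i hi j hj hij
    rw [mem_coe, mem_filter] at hi hj
    rcases lt_trichotomy i j with h | h | h
    · exact absurd hij (hj.2 i h)
    · exact h
    · exact absurd hij.symm (hi.2 j h)
  have h2 : ((univ : Finset (Fin K)).filter fun i => ¬ ∀ j < i, f j ≠ f i).card ≤
      ((univ : Finset (Fin K × Fin K)).filter
        fun q => q.1 ≠ q.2 ∧ s q.1 % p = s q.2 % p).card := by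
    have h3 : ∀ i : Fin K, ∃ j : Fin K, (¬ ∀ j < i, f j ≠ f i) → i ≠ j ∧ f i = f j := by
      intro i
      by_cases h : ∀ j < i, f j ≠ f i
      · exact ⟨i, fun h' => absurd h h'⟩
      · push Not at h
        obtain ⟨j, hj, hij⟩ := h
        exact ⟨j, fun _ => ⟨hj.ne', hij.symm⟩⟩
    choose g hg using h3
    refine card_le_card_of_injOn (fun i => (i, g i)) ?_ ?_
    · intro i hi
      rw [mem_coe, mem_filter] at hi
      rw [mem_coe, mem_filter]
      exact ⟨mem_univ _, hg i hi.2⟩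
    · intro i _ j _ hij
      exact (Prod.ext_iff.1 hij).1
  have h3 := card_filter_add_card_filter_not (s := (univ : Finset (Fin K)))
    (fun i => ∀ j < i, f j ≠ f i)
  rw [card_univ, Fintype.card_fin] at h3
  omega

/-- the number of large prime divisors -/
theorem card_primes (n : ℕ) (hn : n ≠ 0) {Y : ℝ} (hY : 3 ≤ Y) (F : Finset ℕ)
    (hF : ∀ p ∈ F, p.Prime ∧ p ∣ n ∧ Y ≤ p) : (F.card : ℝ) ≤ Real.log n := by
  have hFs : F ⊆ n.primeFactors := fun p hp => Nat.mem_primeFactors.2 ⟨(hF p hp).1, (hF p hp).2.1, hn⟩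
  have h1 : Y ^ F.card ≤ ∏ p ∈ F, (p : ℝ) := by
    rw [← prod_const]
    exact prod_le_prod (fun _ _ => by linarith) fun p hp => (hF p hp).2.2
  have h2 : ∏ p ∈ F, p ≤ n := by
    refine le_trans ?_ (Nat.le_of_dvd (Nat.pos_of_ne_zero hn) (Nat.prod_primeFactors_dvd n))
    exact prod_le_prod_of_subset_of_one_le' hFs fun p hp _ =>
      (Nat.prime_of_mem_primeFactors hp).one_le
  have h3 : Y ^ F.card ≤ n := by
    refine h1.trans ?_
    rw [← Nat.cast_prod]
    exact Nat.cast_le.2 h2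
  have h4 : (F.card : ℝ) * Real.log Y ≤ Real.log n := by
    rw [← Real.log_pow]
    exact Real.log_le_log (by positivity) h3
  have h5 : 1 ≤ Real.log Y := by
    rw [Real.le_log_iff_exp_le (by linarith)]
    linarith [Real.exp_one_lt_d9]
  have h6 : (0 : ℝ) ≤ F.card := Nat.cast_nonneg _
  nlinarith

end Pool.Agent.Q261.SZ
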