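import Pool.Agent.Q261.SZ.HSa
import Pool.Agent.Q261.SZ.VAR
import Pool.Agent.Helper256.KM.Mertens

/-!
# Project SZ: the average of the powers of the pair singular series (HS)
-/

set_option autoImplicit false

namespace Pool.Agent.Q261.SZ

open Finset Filter
open Pool.Agent.Q145.SZ

theorem exp_quad {x : ℝ} (h0 : 0 ≤ x) (h1 : x ≤ 1) : Real.exp x ≤ 1 + x + x ^ 2 := by
  have h := Real.abs_exp_sub_one_sub_id_le (x := x) (by rwa [abs_of_nonneg h0])
  have := (abs_le.1 h).2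
  linarith

theorem gg_le {K p : ℕ} (hp : 4 ≤ p) (hK : 2 * K ≤ p) :
    gg K p ≤ K / ((p : ℝ) - 2) + (K : ℝ) ^ 2 / ((p : ℝ) - 2) ^ 2 := by
  have h4 : (4 : ℝ) ≤ p := by exact_mod_cast hp
  have hKr : 2 * (K : ℝ) ≤ p := by exact_mod_cast hK
  have hK0 : (0 : ℝ) ≤ K := Nat.cast_nonneg _
  have hp2 : 0 < (p : ℝ) - 2 := by linarith
  have hx1 : (K : ℝ) / ((p : ℝ) - 2) ≤ 1 := by
    rw [div_le_one hp2]
    linarith
  have hx0 : 0 ≤ (K : ℝ) / ((p : ℝ) - 2) := by positivity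
  have h1 : ((p : ℝ) - 1) / ((p : ℝ) - 2) ≤ Real.exp (1 / ((p : ℝ) - 2)) := by
    have := Real.add_one_le_exp (1 / ((p : ℝ) - 2))
    have e : ((p : ℝ) - 1) / ((p : ℝ) - 2) = 1 / ((p : ℝ) - 2) + 1 := by field_simp; ring
    rw [e]
    exact this
  have h2 : (((p : ℝ) - 1) / ((p : ℝ) - 2)) ^ K ≤ Real.exp (K / ((p : ℝ) - 2)) := by
    have h3 : 0 ≤ ((p : ℝ) - 1) / ((p : ℝ) - 2) := div_nonneg (by linarith) hp2.le
    refine (pow_le_pow_left₀ h3 h1 K).trans (le_of_eq ?_)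
    rw [← Real.exp_nat_mul]
    congr 1
    ring
  have h3 := exp_quad hx0 hx1
  unfold gg
  rw [div_pow] at h3
  linarith

theorem gg_le2 {K p : ℕ} (hp : 4 ≤ p) : 1 + gg K p ≤ Real.exp (2 * K * (1 / (p : ℝ))) := by
  have h4 : (4 : ℝ) ≤ p := by exact_mod_cast hp
  have hp2 : 0 < (p : ℝ) - 2 := by linarith
  have h1 : ((p : ℝ) - 1) / ((p : ℝ) - 2) ≤ Real.exp (2 * (1 / (p : ℝ))) := by
    have := Real.add_one_le_exp (1 / ((p : ℝ) - 2))
    have e : ((p : ℝ) - 1) / ((p : ℝ) - 2) = 1 / ((p : ℝ) - 2) + 1 := by field_simp; ring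
    rw [e]
    refine this.trans (Real.exp_le_exp.2 ?_)
    rw [mul_one_div, div_le_div_iff₀ hp2 (by linarith)]
    linarith
  have h3 : 0 ≤ ((p : ℝ) - 1) / ((p : ℝ) - 2) := div_nonneg (by linarith) hp2.le
  unfold gg
  rw [add_sub_cancel]
  refine (pow_le_pow_left₀ h3 h1 K).trans (le_of_eq ?_)
  rw [← Real.exp_nat_mul]
  congr 1
  ring

/-- one factor of the main term -/
theorem main_factor {K p : ℕ} (hp : 4 ≤ p) (hK : 2 * K ≤ p) :
    cc p ^ K * (1 + gg K p / p) ≤ Real.exp (12 * (K : ℝ) ^ 2 * (1 / (p : ℝ) ^ 3)) := by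
  have h4 : (4 : ℝ) ≤ p := by exact_mod_cast hp
  have hp0 : 0 < (p : ℝ) := by linarith
  have hp1 : 0 < (p : ℝ) - 1 := by linarith
  have hp2 : 0 < (p : ℝ) - 2 := by linarith
  have hK0 : (0 : ℝ) ≤ K := Nat.cast_nonneg _
  have hKK : (K : ℝ) ≤ (K : ℝ) ^ 2 := by
    have : K ≤ K ^ 2 := by nlinarith [Nat.zero_le K]
    exact_mod_cast this
  have hg := gg_nonneg (K := K) (p := p) (by omega)
  have h1 : cc p ≤ Real.exp (-(1 / ((p : ℝ) - 1) ^ 2)) := by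
    have := Real.add_one_le_exp (-(1 / ((p : ℝ) - 1) ^ 2))
    unfold cc
    linarith
  have h2 : cc p ^ K ≤ Real.exp (-(K / ((p : ℝ) - 1) ^ 2)) := by
    refine (pow_le_pow_left₀ (cc_pos (by omega)).le h1 K).trans (le_of_eq ?_)
    rw [← Real.exp_nat_mul]
    congr 1
    ring
  have h3 : 1 + gg K p / p ≤ Real.exp (gg K p / p) := by
    have := Real.add_one_le_exp (gg K p / p)
    linarith
  have h5 : cc p ^ K * (1 + gg K p / p) ≤
      Real.exp (-(K / ((p : ℝ) - 1) ^ 2)) * Real.exp (gg K p / p) := by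
    refine mul_le_mul h2 h3 (by positivity) (Real.exp_pos _).le
  rw [← Real.exp_add] at h5
  refine h5.trans (Real.exp_le_exp.2 ?_)
  have h6 := gg_le hp hK
  have h7 : gg K p / p ≤ (K / ((p : ℝ) - 2) + (K : ℝ) ^ 2 / ((p : ℝ) - 2) ^ 2) / p := by gcongr
  have h8 : -(K / ((p : ℝ) - 1) ^ 2) + (K / ((p : ℝ) - 2) + (K : ℝ) ^ 2 / ((p : ℝ) - 2) ^ 2) / p =
      K * (1 / (p * ((p : ℝ) - 2) * ((p : ℝ) - 1) ^ 2)) + (K : ℝ) ^ 2 * (1 / (p * ((p : ℝ) - 2) ^ 2)) := by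
    field_simp
    ring
  have h9 : 1 / (p * ((p : ℝ) - 2) * ((p : ℝ) - 1) ^ 2) ≤ 8 * (1 / (p : ℝ) ^ 3) := by
    rw [mul_one_div, div_le_div_iff₀ (by positivity) (by positivity), one_mul]
    have a1 : (p : ℝ) ≤ 2 * ((p : ℝ) - 2) := by linarith
    have a2 : (p : ℝ) ≤ ((p : ℝ) - 1) ^ 2 := by nlinarith
    have a3 : (p : ℝ) * (p * p) ≤ p * (2 * ((p : ℝ) - 2) * ((p : ℝ) - 1) ^ 2) := by
      refine mul_le_mul_of_nonneg_left ?_ hp0.le
      exact mul_le_mul a1 a2 hp0.le (by linarith)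
    have a4 : 0 ≤ (p : ℝ) * ((p : ℝ) - 2) * ((p : ℝ) - 1) ^ 2 := by positivity
    calc (p : ℝ) ^ 3 = p * (p * p) := by ring
      _ ≤ p * (2 * ((p : ℝ) - 2) * ((p : ℝ) - 1) ^ 2) := a3
      _ = 2 * (p * ((p : ℝ) - 2) * ((p : ℝ) - 1) ^ 2) := by ring
      _ ≤ 8 * (p * ((p : ℝ) - 2) * ((p : ℝ) - 1) ^ 2) := by linarith
  have h10 : 1 / (p * ((p : ℝ) - 2) ^ 2) ≤ 4 * (1 / (p : ℝ) ^ 3) := by
    rw [mul_one_div, div_le_div_iff₀ (by positivity) (by positivity), one_mul]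
    have a1 : (p : ℝ) ≤ 2 * ((p : ℝ) - 2) := by linarith
    have a2 : (p : ℝ) ^ 2 ≤ 4 * ((p : ℝ) - 2) ^ 2 := by nlinarith
    calc (p : ℝ) ^ 3 = p * (p : ℝ) ^ 2 := by ring
      _ ≤ p * (4 * ((p : ℝ) - 2) ^ 2) := by gcongr
      _ = 4 * (p * ((p : ℝ) - 2) ^ 2) := by ring
  have h11 : (K : ℝ) * (1 / (p * ((p : ℝ) - 2) * ((p : ℝ) - 1) ^ 2)) ≤
      (K : ℝ) ^ 2 * (8 * (1 / (p : ℝ) ^ 3)) := mul_le_mul hKK h9 (by positivity) (by positivity)
  have h12 : (K : ℝ) ^ 2 * (1 / (p * ((p : ℝ) - 2) ^ 2)) ≤ (K : ℝ) ^ 2 * (4 * (1 / (p : ℝ) ^ 3)) := by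
    gcongr
  linarith

theorem A1_le {C₁ : ℝ} (z X K : ℕ) (hz : 4 ≤ z) (hK : 8 * K ≤ z) (hSQ :
    ∑ p ∈ (Ioc z X).filter Nat.Prime, 1 / (p : ℝ) ^ 3 ≤ C₁ / ((z : ℝ) ^ 2 * Real.log z)) :
    (∏ p ∈ (Ioc z X).filter Nat.Prime, cc p) ^ K *
      ∏ p ∈ (Ioc z X).filter Nat.Prime, (1 + gg K p / p) ≤ Real.exp (C₁ / Real.log z) := by
  have hPm : ∀ p ∈ (Ioc z X).filter Nat.Prime, 4 ≤ p ∧ 2 * K ≤ p := by
    intro p hp
    rw [mem_filter, mem_Ioc] at hp
    omega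
  have hz0 : (0 : ℝ) < z := by exact_mod_cast (show 0 < z by omega)
  have hlog : 0 < Real.log z := Real.log_pos (by exact_mod_cast (show 1 < z by omega))
  rw [← prod_pow, ← prod_mul_distrib]
  have h1 : ∏ p ∈ (Ioc z X).filter Nat.Prime, cc p ^ K * (1 + gg K p / p) ≤
      ∏ p ∈ (Ioc z X).filter Nat.Prime, Real.exp (12 * (K : ℝ) ^ 2 * (1 / (p : ℝ) ^ 3)) := by
    refine prod_le_prod (fun p hp => ?_) fun p hp => main_factor (hPm p hp).1 (hPm p hp).2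
    have := (cc_pos (p := p) (by have := (hPm p hp).1; omega)).le
    have h2 := gg_nonneg (K := K) (p := p) (by have := (hPm p hp).1; omega)
    positivity
  refine h1.trans ?_
  rw [← Real.exp_sum, ← mul_sum]
  refine Real.exp_le_exp.2 ?_
  have hsum0 : 0 ≤ ∑ p ∈ (Ioc z X).filter Nat.Prime, 1 / (p : ℝ) ^ 3 :=
    sum_nonneg fun _ _ => by positivity
  have h3 : 12 * (K : ℝ) ^ 2 ≤ (z : ℝ) ^ 2 := by
    have : 8 * (K : ℝ) ≤ z := by exact_mod_cast hK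
    have hK0 : (0 : ℝ) ≤ K := Nat.cast_nonneg _
    nlinarith
  calc 12 * (K : ℝ) ^ 2 * ∑ p ∈ (Ioc z X).filter Nat.Prime, 1 / (p : ℝ) ^ 3 ≤
        (z : ℝ) ^ 2 * (C₁ / ((z : ℝ) ^ 2 * Real.log z)) := mul_le_mul h3 hSQ hsum0 (by positivity)
    _ = C₁ / Real.log z := by field_simp

theorem A2_le {C₂ : ℝ} (z X K : ℕ) (hz : 4 ≤ z) (hC₂ :
    ∑ p ∈ (Icc 1 X).filter Nat.Prime, 1 / (p : ℝ) ≤ Real.log (Real.log X) + C₂)
    (hC : C₂ ≤ Real.log (Real.log X)) (hL : 1 ≤ Real.log X) :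
    (∏ p ∈ (Ioc z X).filter Nat.Prime, cc p) ^ K *
      ∏ p ∈ (Ioc z X).filter Nat.Prime, (1 + gg K p) ≤ Real.log X ^ (4 * K) := by
  have hPm : ∀ p ∈ (Ioc z X).filter Nat.Prime, 4 ≤ p := by
    intro p hp
    rw [mem_filter, mem_Ioc] at hp
    omega
  have hc1 : (∏ p ∈ (Ioc z X).filter Nat.Prime, cc p) ^ K ≤ 1 := by
    refine pow_le_one₀ (prod_nonneg fun p hp => (cc_pos (by have := hPm p hp; omega)).le) ?_
    refine prod_le_one (fun p hp => (cc_pos (by have := hPm p hp; omega)).le) fun p _ => ?_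
    unfold cc
    have : 0 ≤ 1 / ((p : ℝ) - 1) ^ 2 := by positivity
    linarith
  have hg0 : 0 ≤ ∏ p ∈ (Ioc z X).filter Nat.Prime, (1 + gg K p) := prod_nonneg fun p hp => by
    have := gg_nonneg (K := K) (p := p) (by have := hPm p hp; omega)
    linarith
  refine (mul_le_of_le_one_left hg0 hc1).trans ?_
  have h1 : ∏ p ∈ (Ioc z X).filter Nat.Prime, (1 + gg K p) ≤
      ∏ p ∈ (Ioc z X).filter Nat.Prime, Real.exp (2 * K * (1 / (p : ℝ))) :=
    prod_le_prod (fun p hp => by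
      have := gg_nonneg (K := K) (p := p) (by have := hPm p hp; omega)
      linarith) fun p hp => gg_le2 (hPm p hp)
  refine h1.trans ?_
  rw [← Real.exp_sum, ← mul_sum]
  have h2 : ∑ p ∈ (Ioc z X).filter Nat.Prime, 1 / (p : ℝ) ≤ 2 * Real.log (Real.log X) := by
    have h3 : ∑ p ∈ (Ioc z X).filter Nat.Prime, 1 / (p : ℝ) ≤
        ∑ p ∈ (Icc 1 X).filter Nat.Prime, 1 / (p : ℝ) := by
      refine sum_le_sum_of_subset_of_nonneg ?_ fun _ _ _ => by positivity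
      refine filter_subset_filter _ fun p hp => ?_
      rw [mem_Ioc] at hp
      rw [mem_Icc]
      omega
    linarith
  have h3 : 2 * (K : ℝ) * ∑ p ∈ (Ioc z X).filter Nat.Prime, 1 / (p : ℝ) ≤
      ((4 * K : ℕ) : ℝ) * Real.log (Real.log X) := by
    push_cast
    calc 2 * (K : ℝ) * ∑ p ∈ (Ioc z X).filter Nat.Prime, 1 / (p : ℝ) ≤
          2 * K * (2 * Real.log (Real.log X)) := by gcongr
      _ = _ := by ring
  refine (Real.exp_le_exp.2 h3).trans (le_of_eq ?_)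
  rw [Real.exp_nat_mul, Real.exp_log (by linarith)]

theorem log_PW (z : ℕ) : Real.log (PW z) = Chebyshev.theta (z : ℝ) := by
  have h2 : Chebyshev.theta (z : ℝ) = ∑ p ∈ (Icc 1 z).filter Nat.Prime, Real.log p := by
    rw [Chebyshev.theta, Nat.floor_natCast]
    rfl
  rw [h2]
  unfold PW
  rw [Nat.cast_prod, Real.log_prod]
  intro p hp
  exact_mod_cast (mem_filter.1 hp).2.ne_zero

theorem PW_large : ∀ᶠ z : ℕ in atTop, Real.exp ((z : ℝ) / 2) ≤ PW z := by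
  have h1 : ∀ᶠ x : ℝ in atTop, Real.log x ≤ 1 / 100 * √x := by
    have h := (isLittleO_log_rpow_atTop (r := 1 / 2) (by norm_num)).def
      (c := 1 / 100) (by norm_num)
    filter_upwards [h, eventually_ge_atTop 1] with x hx hx1
    rw [Real.norm_eq_abs, Real.norm_eq_abs, abs_of_nonneg (Real.log_nonneg hx1),
      abs_of_nonneg (by positivity), ← Real.sqrt_eq_rpow] at hx
    exact hx
  filter_upwards [tendsto_natCast_atTop_atTop.eventually h1, eventually_ge_atTop 100] with z hz hz1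
  have hz0 : (100 : ℝ) ≤ z := by exact_mod_cast hz1
  have hW0 : (0 : ℝ) < PW z := by exact_mod_cast Nat.pos_of_ne_zero (NeZero.ne (PW z))
  rw [← Real.le_log_iff_exp_le hW0, log_PW]
  refine le_trans ?_ (Chebyshev.theta_ge z)
  have hs : √(z : ℝ) * √(z : ℝ) = z := Real.mul_self_sqrt (by linarith)
  have hs0 : 0 ≤ √(z : ℝ) := Real.sqrt_nonneg _
  have h2 : 2 * √(z : ℝ) * Real.log z ≤ 1 / 50 * z := by
    calc 2 * √(z : ℝ) * Real.log z ≤ 2 * √(z : ℝ) * (1 / 100 * √(z : ℝ)) := by gcongr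
      _ = 1 / 50 * (√(z : ℝ) * √(z : ℝ)) := by ring
      _ = _ := by rw [hs]
  have h3 : Real.log ((z : ℝ) + 1) ≤ 1 / 10 * z := by
    have h4 : Real.log ((z : ℝ) + 1) ≤ Real.log (2 * z) := Real.log_le_log (by linarith) (by linarith)
    rw [Real.log_mul two_ne_zero (by linarith)] at h4
    have h5 : √(z : ℝ) ≤ z := by
      rw [Real.sqrt_le_left (by linarith)]
      nlinarith
    have := Real.log_two_lt_d9
    linarith
  have h4 := Real.log_two_gt_d9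
  nlinarith

theorem t_HS : S_HS := by
  rintro ⟨C₁, hC₁, hSQ⟩
  obtain ⟨C₂, hC₂⟩ := Pool.Agent.Helper256.KM.mertens_inv
  have hev : ∀ᶠ z : ℕ in atTop, Real.exp ((z : ℝ) / 2) ≤ PW z ∧ 60 ≤ z ∧ 1 ≤ Real.log z ∧
      C₁ ≤ Real.log z ∧ C₂ ≤ Real.log (2 * (z : ℝ)) := by
    have h1 : Tendsto (fun z : ℕ => Real.log z) atTop atTop :=
      Real.tendsto_log_atTop.comp tendsto_natCast_atTop_atTop
    have h2 : Tendsto (fun z : ℕ => Real.log (2 * (z : ℝ))) atTop atTop :=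
      Real.tendsto_log_atTop.comp (tendsto_natCast_atTop_atTop.const_mul_atTop two_pos)
    filter_upwards [PW_large, eventually_ge_atTop 60, h1.eventually_ge_atTop 1,
      h1.eventually_ge_atTop C₁, h2.eventually_ge_atTop C₂] with z a b c d e
    exact ⟨a, b, c, d, e⟩
  obtain ⟨z₀, hz₀⟩ := hev.exists_forall_of_atTop
  refine ⟨4 * C₁ + 3, z₀, by positivity, ?_⟩
  intro z X K hz hK hX c d
  obtain ⟨hW, hz60, hlog1, hlogC, hlogC2⟩ := hz₀ z hz
  have hz60r : (60 : ℝ) ≤ z := by exact_mod_cast hz60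
  have hW0 : (0 : ℝ) < PW z := by exact_mod_cast Nat.pos_of_ne_zero (NeZero.ne (PW z))
  have hlog0 : 0 < Real.log z := by linarith
  have hrhs : 0 ≤ ((X : ℝ) / PW z) ^ 2 * (1 + (4 * C₁ + 3) / Real.log z) := by positivity
  have hW4 : Real.exp (2 * (z : ℝ)) ≤ (PW z : ℝ) ^ 4 := by
    calc Real.exp (2 * (z : ℝ)) = Real.exp ((z : ℝ) / 2) ^ 4 := by
          rw [← Real.exp_nat_mul]
          congr 1
          push_cast
          ring
      _ ≤ _ := by gcongr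
  rcases le_or_gt X 1 with hX1 | hX1
  · refine le_trans (le_of_eq ?_) hrhs
    refine sum_eq_zero fun n hn => sum_eq_zero fun m hm => ?_
    exfalso
    rw [mem_filter, mem_Ioc] at hn hm
    exact hm.2.2 (by omega)
  rcases Nat.lt_or_ge X 3 with hX3 | hX3
  · exfalso
    have hX2 : X = 2 := by omega
    subst hX2
    have h1 : (1 / 2 : ℝ) ≤ Real.log ((2 : ℕ) : ℝ) := by
      push_cast
      linarith [Real.log_two_gt_d9]
    have h2 : (1 / 2 : ℝ) ^ (2 * z + 4) ≤ Real.log ((2 : ℕ) : ℝ) ^ (16 * K + 4) := by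
      calc (1 / 2 : ℝ) ^ (2 * z + 4) ≤ (1 / 2 : ℝ) ^ (16 * K + 4) :=
            pow_le_pow_of_le_one (by norm_num) (by norm_num) (by omega)
        _ ≤ _ := by gcongr
    have h3 : Real.exp (2 * (z : ℝ)) * (1 / 2 : ℝ) ^ (2 * z + 4) ≤ 2 := by
      refine le_trans ?_ (hX.trans (by norm_num))
      exact mul_le_mul hW4 h2 (by positivity) (by positivity)
    have h4 : (7 : ℝ) ^ z ≤ Real.exp (2 * (z : ℝ)) := by
      have h5 : Real.exp (2 * (z : ℝ)) = Real.exp 2 ^ z := by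
        rw [← Real.exp_nat_mul]
        congr 1
        ring
      rw [h5]
      have h6 : (7 : ℝ) ≤ Real.exp 2 := by
        have h7 : Real.exp 2 = Real.exp 1 * Real.exp 1 := by
          rw [← Real.exp_add]
          norm_num
        rw [h7]
        nlinarith [Real.exp_one_gt_d9]
      gcongr
    have h5 : (1 / 2 : ℝ) ^ (2 * z + 4) = (1 / 4) ^ z * (1 / 16) := by
      rw [pow_add, pow_mul]
      norm_num
    have h6 : (7 : ℝ) ^ z * ((1 / 4) ^ z * (1 / 16)) ≤ 2 := by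
      refine le_trans ?_ h3
      rw [h5]
      gcongr
    have h7 : (7 : ℝ) ^ z * ((1 / 4) ^ z * (1 / 16)) = (1 + 3 / 4) ^ z / 16 := by
      rw [← mul_assoc, ← mul_pow]
      norm_num
      ring
    have h8 := one_add_mul_le_pow (a := (3 / 4 : ℝ)) (by norm_num) z
    rw [h7] at h6
    linarith
  -- the main case
  set L := Real.log X with hL
  have hX0 : (0 : ℝ) < X := by exact_mod_cast (show 0 < X by omega)
  have hL1 : 1 ≤ L := by
    rw [hL, Real.le_log_iff_exp_le hX0]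
    have : (3 : ℝ) ≤ X := by exact_mod_cast hX3
    linarith [Real.exp_one_lt_d9]
  have hWX : (PW z : ℝ) ^ 4 ≤ X := by
    refine le_trans (le_mul_of_one_le_right (by positivity) (one_le_pow₀ hL1)) hX
  have hLz : 2 * (z : ℝ) ≤ L := by
    rw [hL, Real.le_log_iff_exp_le hX0]
    exact hW4.trans hWX
  have hloglog : C₂ ≤ Real.log L := hlogC2.trans (Real.log_le_log (by linarith) hLz)
  have hM : ∑ p ∈ (Icc 1 X).filter Nat.Prime, 1 / (p : ℝ) ≤ Real.log (Real.log X) + C₂ := by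
    have := (abs_le.1 (hC₂ X hX3)).2
    linarith
  have hA1 := A1_le z X K (by omega) hK (hSQ z X (by omega))
  have hA2 := A2_le z X K (by omega) hM (by rw [← hL]; exact hloglog) hL1
  rw [← hL] at hA2
  have hexp : Real.exp (C₁ / Real.log z) ≤ 1 + 2 * (C₁ / Real.log z) := by
    have h1 : 0 ≤ C₁ / Real.log z := by positivity
    have h2 : C₁ / Real.log z ≤ 1 := by
      rw [div_le_one hlog0]
      exact hlogC
    have := exp_quad h1 h2
    nlinarith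
  have hzL : Real.log z ≤ L := by
    have := Real.log_le_self (show (0 : ℝ) ≤ z by linarith)
    linarith
  have hW1 : (1 : ℝ) ≤ PW z := by exact_mod_cast Nat.pos_of_ne_zero (NeZero.ne (PW z))
  have hkey : (PW z : ℝ) * L ^ (4 * K) * Real.log z ≤ X := by
    refine le_trans ?_ hX
    have h1 : (PW z : ℝ) ≤ (PW z : ℝ) ^ 4 := by
      have := pow_le_pow_right₀ hW1 (show 1 ≤ 4 by norm_num)
      rwa [pow_one] at this
    have h2 : L ^ (4 * K) * Real.log z ≤ L ^ (16 * K + 4) := by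
      calc L ^ (4 * K) * Real.log z ≤ L ^ (4 * K) * L := by gcongr
        _ = L ^ (4 * K + 1) := by ring
        _ ≤ _ := pow_le_pow_right₀ hL1 (by omega)
    calc (PW z : ℝ) * L ^ (4 * K) * Real.log z = (PW z : ℝ) * (L ^ (4 * K) * Real.log z) := by ring
      _ ≤ (PW z : ℝ) ^ 4 * L ^ (16 * K + 4) := by gcongr
  set u : ℝ := 1 / Real.log z with hu
  have hu0 : 0 < u := by positivity
  have hu1 : u ≤ 1 := by
    rw [hu, div_le_one hlog0]
    exact hlog1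
  set T : ℝ := (X : ℝ) / PW z with hT
  have hT0 : 0 < T := by positivity
  have hTL : L ^ (4 * K) ≤ u * T := by
    rw [hu, hT, one_div, ← div_eq_inv_mul, div_div, le_div_iff₀ (by positivity)]
    calc L ^ (4 * K) * (↑(PW z) * Real.log ↑z) = (PW z : ℝ) * L ^ (4 * K) * Real.log z := by ring
      _ ≤ X := hkey
  have hT1 : 1 ≤ u * T := le_trans (one_le_pow₀ hL1) hTL
  refine (double z X K (by omega) (fun p hp hzp => coprime_PW hp hzp) c d).trans ?_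
  rw [← hT]
  have h1 : (∏ p ∈ (Ioc z X).filter Nat.Prime, cc p) ^ K *
      (T * ∏ p ∈ (Ioc z X).filter Nat.Prime, (1 + gg K p / p) +
        ∏ p ∈ (Ioc z X).filter Nat.Prime, (1 + gg K p)) ≤
      T * (1 + 2 * (C₁ * u)) + u * T := by
    have h2 : (∏ p ∈ (Ioc z X).filter Nat.Prime, cc p) ^ K *
      (T * ∏ p ∈ (Ioc z X).filter Nat.Prime, (1 + gg K p / p) +
        ∏ p ∈ (Ioc z X).filter Nat.Prime, (1 + gg K p)) =
      T * ((∏ p ∈ (Ioc z X).filter Nat.Prime, cc p) ^ K *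
        ∏ p ∈ (Ioc z X).filter Nat.Prime, (1 + gg K p / p)) +
      (∏ p ∈ (Ioc z X).filter Nat.Prime, cc p) ^ K *
        ∏ p ∈ (Ioc z X).filter Nat.Prime, (1 + gg K p) := by ring
    rw [h2]
    have h3 : C₁ / Real.log z = C₁ * u := by rw [hu]; ring
    rw [h3] at hA1 hexp
    have h4 := mul_le_mul_of_nonneg_left (hA1.trans hexp) hT0.le
    linarith
  have h2 : T + 1 ≤ T * (1 + u) := by linarith
  have hC₁u : 0 ≤ C₁ * u := by positivity
  calc (T + 1) * ((∏ p ∈ (Ioc z X).filter Nat.Prime, cc p) ^ K *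
      (T * ∏ p ∈ (Ioc z X).filter Nat.Prime, (1 + gg K p / p) +
        ∏ p ∈ (Ioc z X).filter Nat.Prime, (1 + gg K p)))
      ≤ (T + 1) * (T * (1 + 2 * (C₁ * u)) + u * T) := by gcongr
    _ ≤ T * (1 + u) * (T * (1 + 2 * (C₁ * u)) + u * T) := by gcongr
    _ = T ^ 2 * (1 + (2 * C₁ + 2) * u + (2 * C₁ + 1) * (u * u)) := by ring
    _ ≤ T ^ 2 * (1 + (2 * C₁ + 2) * u + (2 * C₁ + 1) * u) := by
        have h3 : u * u ≤ u := by nlinarith
        gcongr
    _ = T ^ 2 * (1 + (4 * C₁ + 3) / Real.log z) := by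
        rw [hu]
        ring

end Pool.Agent.Q261.SZ

theorem Pool.Agent.Q145.SZ.t_HS : Pool.Agent.Q145.SZ.S_HS := Pool.Agent.Q261.SZ.t_HS
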