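import Pool.Agent.Q261.SZ.Loc

/-!
# Project SZ: the tail of the singular series of an injective tuple (FAR)
-/

set_option autoImplicit false

namespace Pool.Agent.Q261.SZ

open Finset Filter
open Pool.Agent.Q145.SZ

theorem sum_inv_sq (M n : ℕ) (hM : 0 < M) (P : Finset ℕ) (hP : P ⊆ Ioc M n) :
    ∑ p ∈ P, ((p : ℝ) ^ 2)⁻¹ ≤ (M : ℝ)⁻¹ := by
  have h1 : ∑ p ∈ P, ((p : ℝ) ^ 2)⁻¹ ≤ ∑ p ∈ Ioc M n, ((p : ℝ) ^ 2)⁻¹ :=
    sum_le_sum_of_subset_of_nonneg hP fun _ _ _ => by positivity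
  refine h1.trans ?_
  rcases le_or_gt M n with h | h
  · refine (sum_Ioc_inv_sq_le_sub hM.ne' h).trans ?_
    have : (0 : ℝ) ≤ (n : ℝ)⁻¹ := by positivity
    linarith
  · rw [Ioc_eq_empty (by omega), sum_empty]
    positivity

theorem sum_kappa {K : ℕ} (s : Fin K → ℕ) {X Y w : ℕ} (hX : 3 ≤ X) (hY : 3 ≤ Y)
    (hs : ∀ i, 1 ≤ s i ∧ s i ≤ X) (hinj : Function.Injective s) :
    ∑ p ∈ (Ioc Y w).filter Nat.Prime, ((K : ℝ) - nu s p) / p ≤ (K : ℝ) ^ 2 * Real.log X / Y := by
  classical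
  have hY0 : (0 : ℝ) < Y := by exact_mod_cast (show 0 < Y by omega)
  have hlogX : 0 ≤ Real.log X := Real.log_natCast_nonneg X
  have h1 : ∀ p ∈ (Ioc Y w).filter Nat.Prime, ((K : ℝ) - nu s p) / p ≤
      (((univ : Finset (Fin K × Fin K)).filter
        fun q => q.1 ≠ q.2 ∧ s q.1 % p = s q.2 % p).card : ℝ) / Y := by
    intro p hp
    rw [mem_filter, mem_Ioc] at hp
    have hc := collide s p
    have hc' : (K : ℝ) ≤ nu s p + ((univ : Finset (Fin K × Fin K)).filter
        fun q => q.1 ≠ q.2 ∧ s q.1 % p = s q.2 % p).card := by exact_mod_cast hc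
    have hYp : (Y : ℝ) ≤ p := by exact_mod_cast hp.1.1.le
    refine div_le_div₀ (Nat.cast_nonneg _) (by linarith) hY0 hYp
  refine (sum_le_sum h1).trans ?_
  rw [← sum_div]
  refine div_le_div_of_nonneg_right ?_ hY0.le
  have h2 : ∑ p ∈ (Ioc Y w).filter Nat.Prime, (((univ : Finset (Fin K × Fin K)).filter
        fun q => q.1 ≠ q.2 ∧ s q.1 % p = s q.2 % p).card : ℝ) =
      ∑ q : Fin K × Fin K, ((((Ioc Y w).filter Nat.Prime).filter
        fun p => q.1 ≠ q.2 ∧ s q.1 % p = s q.2 % p).card : ℝ) := by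
    have h3 : ∀ p, (((univ : Finset (Fin K × Fin K)).filter
        fun q => q.1 ≠ q.2 ∧ s q.1 % p = s q.2 % p).card : ℝ) =
        ∑ q : Fin K × Fin K, if q.1 ≠ q.2 ∧ s q.1 % p = s q.2 % p then (1 : ℝ) else 0 := by
      intro p
      rw [sum_boole]
    simp only [h3]
    rw [sum_comm]
    refine sum_congr rfl fun q _ => ?_
    rw [sum_boole]
  rw [h2]
  have h3 : ∀ q ∈ (univ : Finset (Fin K × Fin K)), ((((Ioc Y w).filter Nat.Prime).filter
        fun p => q.1 ≠ q.2 ∧ s q.1 % p = s q.2 % p).card : ℝ) ≤ Real.log X := by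
    intro q _
    by_cases hq : q.1 = q.2
    · rw [filter_false_of_mem]
      · rw [card_empty, Nat.cast_zero]
        exact hlogX
      · intro p _ h
        exact h.1 hq
    · have hne : ((s q.1 : ℤ) - s q.2).natAbs ≠ 0 := by
        rw [Int.natAbs_ne_zero, sub_ne_zero]
        intro h
        exact hq (hinj (by exact_mod_cast h))
      have h4 := card_primes ((s q.1 : ℤ) - s q.2).natAbs hne (Y := (Y : ℝ))
        (by exact_mod_cast hY) (((Ioc Y w).filter Nat.Prime).filter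
        fun p => q.1 ≠ q.2 ∧ s q.1 % p = s q.2 % p) (fun p hp => by
          rw [mem_filter, mem_filter, mem_Ioc] at hp
          refine ⟨hp.1.2, ?_, by exact_mod_cast hp.1.1.1.le⟩
          rw [← Int.natCast_dvd]
          have : (s q.2 : ℤ) ≡ s q.1 [ZMOD p] := by
            have h5 : s q.2 ≡ s q.1 [MOD p] := hp.2.2.symm
            exact (Int.natCast_modEq_iff).2 h5
          exact this.dvd)
      refine h4.trans (Real.log_le_log ?_ ?_)
      · exact_mod_cast Nat.pos_of_ne_zero hne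
      · have h5 := hs q.1
        have h6 := hs q.2
        exact_mod_cast (show ((s q.1 : ℤ) - s q.2).natAbs ≤ X by omega)
  refine (sum_le_card_nsmul _ _ _ h3).trans ?_
  rw [card_univ, Fintype.card_prod, Fintype.card_fin, nsmul_eq_mul]
  push_cast
  exact le_of_eq (by ring)

theorem sum_log {K : ℕ} (s : Fin K → ℕ) {X Y w : ℕ} (hX : 3 ≤ X) (hY : 8 * K ^ 2 ≤ Y)
    (hs : ∀ i, 1 ≤ s i ∧ s i ≤ X) (hinj : Function.Injective s) :
    ∑ p ∈ (Ioc Y w).filter Nat.Prime, |Real.log (loc s p)| ≤ 8 * (K : ℝ) ^ 2 * Real.log X / Y := by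
  have hlog : 1 ≤ Real.log X := by
    rw [Real.le_log_iff_exp_le (by exact_mod_cast (show 0 < X by omega))]
    have : (3 : ℝ) ≤ X := by exact_mod_cast hX
    linarith [Real.exp_one_lt_d9]
  have h1 : ∀ p ∈ (Ioc Y w).filter Nat.Prime, |Real.log (loc s p)| ≤
      ((K : ℝ) - nu s p) / p + 2 * (K : ℝ) ^ 2 * ((p : ℝ) ^ 2)⁻¹ := by
    intro p hp
    rw [mem_filter, mem_Ioc] at hp
    have h2 : 2 * K ≤ p := by nlinarith [hp.1.1]
    have h3 : K < p := by
      have := hp.2.two_le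
      omega
    rw [← div_eq_mul_inv]
    exact (log_loc s hp.2.two_le h2 (lt_of_le_of_lt (nu_le s p) h3)).2
  refine (sum_le_sum h1).trans ?_
  rcases Nat.eq_zero_or_pos K with hK | hK
  · subst hK
    have : ∀ p, nu s p = 0 := fun p => Nat.le_zero.1 (nu_le s p)
    simp [this]
  have hY3 : 3 ≤ Y := by nlinarith
  have hY0 : (0 : ℝ) < Y := by exact_mod_cast (show 0 < Y by omega)
  rw [sum_add_distrib, ← mul_sum]
  have h2 := sum_kappa s (w := w) hX hY3 hs hinj
  have h3 := sum_inv_sq Y w (by omega) ((Ioc Y w).filter Nat.Prime) (filter_subset _ _)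
  have h4 : 2 * (K : ℝ) ^ 2 * ∑ p ∈ (Ioc Y w).filter Nat.Prime, ((p : ℝ) ^ 2)⁻¹ ≤
      2 * (K : ℝ) ^ 2 * Real.log X / Y := by
    calc 2 * (K : ℝ) ^ 2 * ∑ p ∈ (Ioc Y w).filter Nat.Prime, ((p : ℝ) ^ 2)⁻¹
        ≤ 2 * (K : ℝ) ^ 2 * (Y : ℝ)⁻¹ := by gcongr
      _ ≤ 2 * (K : ℝ) ^ 2 * (Real.log X * (Y : ℝ)⁻¹) := by
          gcongr
          exact le_mul_of_one_le_left (by positivity) hlog
      _ = _ := by ring
  have h5 : (K : ℝ) ^ 2 * Real.log X / Y + 2 * (K : ℝ) ^ 2 * Real.log X / Y ≤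
      8 * (K : ℝ) ^ 2 * Real.log X / Y := by
    rw [← add_div]
    gcongr
    nlinarith [mul_nonneg (sq_nonneg (K : ℝ)) (zero_le_one.trans hlog)]
  linarith

theorem t_FAR : S_FAR := by
  intro X Y K s hX hY _ hs hinj hadm
  set B : ℝ := 8 * (K : ℝ) ^ 2 * Real.log X / Y with hB
  have hposY : 0 < singP s Y := by
    unfold singP
    refine prod_pos fun p hp => ?_
    rw [mem_filter, mem_Icc] at hp
    have hp0 : (0 : ℝ) < p := by exact_mod_cast hp.2.pos
    have h1 : (nu s p : ℝ) < p := by exact_mod_cast hadm p hp.2 hp.1.2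
    have h2 : (1 : ℝ) < p := by exact_mod_cast hp.2.one_lt
    have h3 : 0 < 1 - (nu s p : ℝ) / p := by
      rw [sub_pos, div_lt_one hp0]
      exact h1
    have h4 : 0 < 1 - 1 / (p : ℝ) := by
      rw [sub_pos, div_lt_one hp0]
      exact h2
    unfold loc
    positivity
  set f : ℕ → ℝ := fun p => if p.Prime ∧ Y < p then Real.log (loc s p) else 0 with hf
  have hloc : ∀ p : ℕ, p.Prime → Y < p → 0 < loc s p := by
    intro p hp hYp
    have h2 : 2 * K ≤ p := by nlinarith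
    have h3 : K < p := by
      have := hp.two_le
      omega
    exact (log_loc s hp.two_le h2 (lt_of_le_of_lt (nu_le s p) h3)).1
  have hset : ∀ n : ℕ, (range (n + 1)).filter (fun p => p.Prime ∧ Y < p) =
      (Ioc Y n).filter Nat.Prime := by
    intro n
    ext p
    rw [mem_filter, mem_filter, mem_range, mem_Ioc]
    constructor
    · rintro ⟨h1, h2, h3⟩
      exact ⟨⟨h3, by omega⟩, h2⟩
    · rintro ⟨⟨h1, h2⟩, h3⟩
      exact ⟨by omega, h3, h1⟩
  have hsum : ∀ n : ℕ, ∑ p ∈ range (n + 1), f p =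
      ∑ p ∈ (Ioc Y n).filter Nat.Prime, Real.log (loc s p) := by
    intro n
    rw [hf, ← sum_filter, hset]
  have habs : ∀ n : ℕ, ∑ p ∈ range n, |f p| ≤ B := by
    intro n
    have h1 : ∑ p ∈ range n, |f p| ≤ ∑ p ∈ range (n + 1), |f p| :=
      sum_le_sum_of_subset_of_nonneg (range_mono (Nat.le_succ n)) fun _ _ _ => abs_nonneg _
    refine h1.trans ?_
    have h2 : ∑ p ∈ range (n + 1), |f p| =
        ∑ p ∈ (Ioc Y n).filter Nat.Prime, |Real.log (loc s p)| := by
      rw [← hset, sum_filter]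
      refine sum_congr rfl fun p _ => ?_
      rw [hf]
      dsimp only
      split_ifs
      · rfl
      · exact abs_zero
    rw [h2]
    exact sum_log s hX hY hs hinj
  have hS : Summable fun p => |f p| := summable_of_sum_range_le (fun _ => abs_nonneg _) habs
  have hS' : Summable f := hS.of_abs
  have hlim : Tendsto (singP s) atTop (nhds (singP s Y * Real.exp (∑' p, f p))) := by
    have h1 : Tendsto (fun n : ℕ => ∑ p ∈ range (n + 1), f p) atTop (nhds (∑' p, f p)) :=
      (tendsto_add_atTop_iff_nat 1).2 hS'.hasSum.tendsto_sum_nat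
    have h2 := ((Real.continuous_exp.tendsto _).comp h1).const_mul (singP s Y)
    refine h2.congr' ?_
    filter_upwards [eventually_ge_atTop Y] with w hw
    rw [Function.comp_apply, hsum, Real.exp_sum]
    unfold singP
    have h3 : (Icc 1 w).filter Nat.Prime = (Icc 1 Y).filter Nat.Prime ∪ (Ioc Y w).filter Nat.Prime := by
      rw [← filter_union]
      congr 1
      ext p
      rw [mem_union, mem_Icc, mem_Icc, mem_Ioc]
      omega
    have h4 : Disjoint ((Icc 1 Y).filter Nat.Prime) ((Ioc Y w).filter Nat.Prime) := by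
      refine disjoint_filter_filter ?_
      rw [disjoint_left]
      intro p h5 h6
      rw [mem_Icc] at h5
      rw [mem_Ioc] at h6
      omega
    rw [h3, prod_union h4]
    congr 1
    refine prod_congr rfl fun p hp => ?_
    rw [mem_filter, mem_Ioc] at hp
    exact Real.exp_log (hloc p hp.2 hp.1.1)
  have hsing : sing s = singP s Y * Real.exp (∑' p, f p) := hlim.limUnder_eq
  have hpos : 0 < sing s := by
    rw [hsing]
    exact mul_pos hposY (Real.exp_pos _)
  refine ⟨hposY, hpos, by rw [hsing]; exact hlim, ?_⟩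
  rw [hsing, mul_div_cancel_left₀ _ hposY.ne', Real.log_exp]
  have h1 : |∑' p, f p| ≤ ∑' p, |f p| := by
    have := norm_tsum_le_tsum_norm (f := f) (by simpa [Real.norm_eq_abs] using hS)
    simpa [Real.norm_eq_abs] using this
  exact h1.trans (Real.tsum_le_of_sum_range_le (fun _ => abs_nonneg _) habs)

end Pool.Agent.Q261.SZ

theorem Pool.Agent.Q145.SZ.t_FAR : Pool.Agent.Q145.SZ.S_FAR := Pool.Agent.Q261.SZ.t_FAR
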