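import Pool.Agent.Q261.SZ.VAR

/-!
# Project SZ: the singular series is close to its partial product for most tuples (TAIL)
-/

set_option autoImplicit false

namespace Pool.Agent.Q261.SZ

open Finset Filter
open Pool.Agent.Q145.SZ

theorem card_cls {W : ℕ} [NeZero W] (X : ℕ) (β : ZMod W) :
    |((cls X β).card : ℝ) - (X : ℝ) / W| ≤ 1 := by
  have h := cnt_cls X 1 0 one_pos (Nat.coprime_one_right W) β
  rw [Nat.cast_one, div_one, filter_true_of_mem (fun s _ => Nat.modEq_one)] at h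
  exact h

theorem noninj {W : ℕ} [NeZero W] (X K : ℕ) (hX : 2 * (W : ℝ) ≤ X) (b : Fin K → ZMod W) :
    (((Sb X b).filter fun s => ¬ Function.Injective s).card : ℝ) ≤
      (K : ℝ) ^ 2 * (2 * W / X) * (Sb X b).card := by
  classical
  have hW0 : (0 : ℝ) < W := by exact_mod_cast Nat.pos_of_ne_zero (NeZero.ne W)
  have hX0 : (0 : ℝ) < X := by linarith
  have hC : ∀ j, (X : ℝ) / (2 * W) ≤ ((cls X (b j)).card : ℝ) := by
    intro j
    have h1 := (abs_le.1 (card_cls X (b j))).1
    have h2 : (1 : ℝ) ≤ X / (2 * W) := by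
      rw [le_div_iff₀ (by positivity)]
      linarith
    have h3 : (X : ℝ) / W = 2 * (X / (2 * W)) := by field_simp
    linarith
  have hpair : ∀ q : Fin K × Fin K, q.1 ≠ q.2 →
      (((Sb X b).filter fun s => s q.1 = s q.2).card : ℝ) ≤ (2 * W / X) * (Sb X b).card := by
    rintro ⟨i, j⟩ hij
    dsimp only at hij ⊢
    have h1 : ((Sb X b).filter fun s => s i = s j).card ≤
        ∏ k ∈ univ.erase j, (cls X (b k)).card := by
      have h2 : ((Sb X b).filter fun s => s i = s j).card ≤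
          (Fintype.piFinset (Function.update (fun k => cls X (b k)) j {0})).card := by
        refine card_le_card_of_injOn (fun s => Function.update s j 0) ?_ ?_
        · intro s hs
          rw [mem_coe, mem_filter] at hs
          rw [mem_coe, Fintype.mem_piFinset]
          have h3 := hs.1
          unfold Sb at h3
          rw [Fintype.mem_piFinset] at h3
          intro k
          by_cases hk : k = j
          · subst hk
            simp
          · simp only [Function.update_of_ne hk]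
            exact h3 k
        · intro s hs t ht hst
          rw [mem_coe, mem_filter] at hs ht
          have h3 : ∀ k, k ≠ j → s k = t k := by
            intro k hk
            have := congrFun hst k
            simpa only [Function.update_of_ne hk] using this
          ext k
          by_cases hk : k = j
          · subst hk
            rw [← hs.2, ← ht.2]
            exact h3 i hij
          · exact h3 k hk
      refine h2.trans (le_of_eq ?_)
      rw [Fintype.card_piFinset, ← mul_prod_erase univ _ (mem_univ j), Function.update_self,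
        card_singleton, one_mul]
      refine prod_congr rfl fun k hk => ?_
      rw [Function.update_of_ne (mem_erase.1 hk).1]
    have h2 : ((Sb X b).card : ℝ) = (cls X (b j)).card * ∏ k ∈ univ.erase j, ((cls X (b k)).card : ℝ) := by
      unfold Sb
      rw [Fintype.card_piFinset, ← mul_prod_erase univ _ (mem_univ j)]
      push_cast
      rfl
    have h3 : (((Sb X b).filter fun s => s i = s j).card : ℝ) ≤
        ∏ k ∈ univ.erase j, ((cls X (b k)).card : ℝ) := by exact_mod_cast h1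
    have h4 : 1 ≤ (2 * (W : ℝ) / X) * (cls X (b j)).card := by
      have h5 := hC j
      calc (1 : ℝ) = (2 * (W : ℝ) / X) * (X / (2 * W)) := by field_simp
        _ ≤ _ := by gcongr
    rw [h2, ← mul_assoc]
    refine h3.trans (le_mul_of_one_le_left (by positivity) h4)
  have hsub : (Sb X b).filter (fun s => ¬ Function.Injective s) ⊆
      ((univ : Finset (Fin K × Fin K)).filter fun q => q.1 ≠ q.2).biUnion
        fun q => (Sb X b).filter fun s => s q.1 = s q.2 := by
    intro s hs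
    rw [mem_filter] at hs
    obtain ⟨hs1, hs2⟩ := hs
    unfold Function.Injective at hs2
    push Not at hs2
    obtain ⟨i, j, hij, hne⟩ := hs2
    rw [mem_biUnion]
    exact ⟨(i, j), mem_filter.2 ⟨mem_univ _, hne⟩, mem_filter.2 ⟨hs1, hij⟩⟩
  have h1 : (((Sb X b).filter fun s => ¬ Function.Injective s).card : ℝ) ≤
      ∑ q ∈ (univ : Finset (Fin K × Fin K)).filter fun q => q.1 ≠ q.2,
        (((Sb X b).filter fun s => s q.1 = s q.2).card : ℝ) := by
    exact_mod_cast (card_le_card hsub).trans card_biUnion_le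
  refine h1.trans ((sum_le_card_nsmul _ _ _ fun q hq => hpair q (mem_filter.1 hq).2).trans ?_)
  rw [nsmul_eq_mul, mul_assoc]
  refine mul_le_mul_of_nonneg_right ?_ (by positivity)
  have h2 : ((univ : Finset (Fin K × Fin K)).filter fun q => q.1 ≠ q.2).card ≤ K ^ 2 := by
    refine (card_filter_le _ _).trans ?_
    rw [card_univ, Fintype.card_prod, Fintype.card_fin, sq]
  exact_mod_cast h2

theorem singP_split {K : ℕ} (s : Fin K → ℕ) {z Y : ℕ} (h : z ≤ Y) :
    singP s Y = singP s z * ∏ p ∈ (Ioc z Y).filter Nat.Prime, loc s p := by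
  unfold singP
  have h3 : (Icc 1 Y).filter Nat.Prime = (Icc 1 z).filter Nat.Prime ∪ (Ioc z Y).filter Nat.Prime := by
    rw [← filter_union]
    congr 1
    ext p
    rw [mem_union, mem_Icc, mem_Icc, mem_Ioc]
    omega
  have h4 : Disjoint ((Icc 1 z).filter Nat.Prime) ((Ioc z Y).filter Nat.Prime) := by
    refine disjoint_filter_filter ?_
    rw [disjoint_left]
    intro p h5 h6
    rw [mem_Icc] at h5
    rw [mem_Ioc] at h6
    omega
  rw [h3, prod_union h4]

theorem sing_zero {K : ℕ} (s : Fin K → ℕ) {z p : ℕ} (hp : p.Prime) (hpz : p ≤ z)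
    (hnu : ¬ nu s p < p) : singP s z = 0 ∧ sing s = 0 := by
  have h1 : nu s p = p := by
    refine le_antisymm ?_ (not_lt.1 hnu)
    unfold nu
    have : (univ.image fun i => s i % p) ⊆ range p := by
      intro x hx
      rw [mem_image] at hx
      obtain ⟨i, _, rfl⟩ := hx
      exact mem_range.2 (Nat.mod_lt _ hp.pos)
    exact (card_le_card this).trans (le_of_eq (card_range p))
  have h2 : loc s p = 0 := by
    unfold loc
    have : (p : ℝ) ≠ 0 := by exact_mod_cast hp.ne_zero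
    rw [h1, div_self this, sub_self, zero_div]
  have h3 : ∀ w, z ≤ w → singP s w = 0 := by
    intro w hw
    unfold singP
    refine prod_eq_zero (mem_filter.2 ⟨mem_Icc.2 ⟨hp.one_le, hpz.trans hw⟩, hp⟩) h2
  refine ⟨h3 z le_rfl, ?_⟩
  unfold sing
  refine Tendsto.limUnder_eq (tendsto_const_nhds.congr' ?_)
  filter_upwards [eventually_ge_atTop z] with w hw
  exact (h3 w hw).symm

theorem log_one_add {y : ℝ} (h : |y| ≤ 1 / 2) : |Real.log (1 + y) - y| ≤ 2 * y ^ 2 := by
  rw [abs_le] at h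
  have hpos : 0 < 1 + y := by linarith
  have h1 := Real.log_le_sub_one_of_pos hpos
  have h2 := Real.one_sub_inv_le_log_of_pos hpos
  rw [abs_le]
  constructor
  · have h3 : (1 + y)⁻¹ ≤ 1 - y + 2 * y ^ 2 := by
      rw [inv_le_iff_one_le_mul₀ hpos]
      nlinarith [sq_nonneg y, mul_nonneg (sq_nonneg y) (by linarith : (0 : ℝ) ≤ 1 + 2 * y)]
    linarith
  · nlinarith [sq_nonneg y]

theorem good_case (hFAR : S_FAR) {K : ℕ} (s : Fin K → ℕ) {X Y z : ℕ} {δ : ℝ} (hδ : δ ≤ 1 / 8)
    (hzY : z ≤ Y) (hK : 8 * K ≤ z) (hX : 3 ≤ X) (hY1 : 8 * K ^ 2 ≤ Y)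
    (hY2 : 8 * (K : ℝ) ^ 2 * Real.log X ≤ Y) (hY3 : 8 * (K : ℝ) ^ 2 * Real.log X / Y ≤ δ)
    (hs : ∀ i, 1 ≤ s i ∧ s i ≤ X) (hinj : Function.Injective s)
    (h1 : |∑ p ∈ (Ioc z Y).filter Nat.Prime, (loc s p - 1)| ≤ δ)
    (h2 : ∑ p ∈ (Ioc z Y).filter Nat.Prime, (loc s p - 1) ^ 2 ≤ δ) :
    |sing s - singP s z| ≤ 8 * δ * singP s z := by
  by_cases hA : ∀ p : ℕ, p.Prime → p ≤ z → nu s p < p
  · set P := (Ioc z Y).filter Nat.Prime with hP
    have hPm : ∀ p ∈ P, p.Prime ∧ 8 * K ≤ p ∧ K < p := by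
      intro p hp
      rw [hP, mem_filter, mem_Ioc] at hp
      refine ⟨hp.2, by omega, by have := hp.2.two_le; omega⟩
    have hA' : ∀ p : ℕ, p.Prime → p ≤ Y → nu s p < p := by
      intro p hp hpY
      rcases le_or_gt p z with h | h
      · exact hA p hp h
      · have := (hPm p (mem_filter.2 ⟨mem_Ioc.2 ⟨h, hpY⟩, hp⟩)).2.2
        exact lt_of_le_of_lt (nu_le s p) this
    obtain ⟨f1, f2, _, f4⟩ := hFAR X Y K s hX hY1 hY2 hs hinj hA'
    have hloc : ∀ p ∈ P, 0 < loc s p ∧ |loc s p - 1| ≤ 1 / 2 := by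
      intro p hp
      obtain ⟨g1, g2, g3⟩ := hPm p hp
      have hp0 : (0 : ℝ) < p := by exact_mod_cast g1.pos
      have k1 := (loc_bds s g1 g2).2
      have k2 : 7 / 8 ≤ loc s p := by
        have hν : (nu s p : ℝ) ≤ K := by exact_mod_cast nu_le s p
        have hKr : 8 * (K : ℝ) ≤ p := by exact_mod_cast g2
        have e1 : (nu s p : ℝ) / p ≤ 1 / 8 := by
          rw [div_le_div_iff₀ hp0 (by norm_num)]
          linarith
        have hp2 : (2 : ℝ) ≤ p := by exact_mod_cast g1.two_le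
        have e2 : 1 / (p : ℝ) ≤ 1 / 2 := one_div_le_one_div_of_le two_pos hp2
        have e3 : 0 < 1 / (p : ℝ) := by positivity
        have e4 : 0 < (1 - 1 / (p : ℝ)) ^ K := pow_pos (by linarith) K
        have e5 : (1 - 1 / (p : ℝ)) ^ K ≤ 1 := pow_le_one₀ (by linarith) (by linarith)
        unfold loc
        rw [le_div_iff₀ e4]
        nlinarith
      refine ⟨by linarith, ?_⟩
      rw [abs_le]
      constructor <;> linarith
    have hsplit := singP_split s hzY
    rw [← hP] at hsplit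
    have hprod : 0 < ∏ p ∈ P, loc s p := prod_pos fun p hp => (hloc p hp).1
    have hz0 : 0 < singP s z := by
      rw [hsplit] at f1
      exact (pos_iff_pos_of_mul_pos f1).2 hprod
    have hlogY : Real.log (singP s Y) = Real.log (singP s z) + ∑ p ∈ P, Real.log (loc s p) := by
      rw [hsplit, Real.log_mul hz0.ne' hprod.ne', Real.log_prod]
      exact fun p hp => (hloc p hp).1.ne'
    set t := Real.log (sing s / singP s z) with ht
    have ht1 : t = Real.log (sing s / singP s Y) + ∑ p ∈ P, Real.log (loc s p) := by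
      rw [ht, Real.log_div f2.ne' hz0.ne', Real.log_div f2.ne' f1.ne', hlogY]
      ring
    have ht2 : ∑ p ∈ P, Real.log (loc s p) =
        ∑ p ∈ P, (Real.log (1 + (loc s p - 1)) - (loc s p - 1)) + ∑ p ∈ P, (loc s p - 1) := by
      rw [← sum_add_distrib]
      refine sum_congr rfl fun p _ => ?_
      rw [sub_add_cancel]
      congr 1
      ring
    have ht3 : |∑ p ∈ P, (Real.log (1 + (loc s p - 1)) - (loc s p - 1))| ≤ 2 * δ := by
      refine (abs_sum_le_sum_abs _ _).trans ?_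
      refine (sum_le_sum fun p hp => log_one_add (hloc p hp).2).trans ?_
      rw [← mul_sum]
      linarith
    have ht4 : |t| ≤ 4 * δ := by
      rw [ht1, ht2]
      have a1 := abs_add_le (Real.log (sing s / singP s Y))
        (∑ p ∈ P, (Real.log (1 + (loc s p - 1)) - (loc s p - 1)) + ∑ p ∈ P, (loc s p - 1))
      have a2 := abs_add_le (∑ p ∈ P, (Real.log (1 + (loc s p - 1)) - (loc s p - 1)))
        (∑ p ∈ P, (loc s p - 1))
      linarith
    have hexp : sing s = singP s z * Real.exp t := by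
      rw [ht, Real.exp_log (div_pos f2 hz0)]
      field_simp
    have ht5 : |Real.exp t - 1| ≤ 2 * |t| := Real.abs_exp_sub_one_le (by linarith)
    have h6 : sing s - singP s z = singP s z * (Real.exp t - 1) := by
      rw [hexp]
      ring
    rw [h6, abs_mul, abs_of_pos hz0, mul_comm]
    refine mul_le_mul_of_nonneg_right ?_ hz0.le
    linarith
  · push Not at hA
    obtain ⟨p, hp, hpz, hnu⟩ := hA
    obtain ⟨e1, e2⟩ := sing_zero s hp hpz (not_lt.2 hnu)
    rw [e1, e2]
    simp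

theorem tail_gen (hFAR : S_FAR) (hLM : S_LM) {C₁ : ℝ} (hC : 0 < C₁) (hSQ : ∀ z w : ℕ, 2 ≤ z →
    ∑ p ∈ (Ioc z w).filter Nat.Prime, 1 / (p : ℝ) ^ 3 ≤ C₁ / ((z : ℝ) ^ 2 * Real.log z))
    {δ : ℝ} (hδ0 : 0 < δ) (hδ : δ ≤ 1 / 8) {W : ℕ} [NeZero W] (z X K : ℕ) (hX3 : 3 ≤ X)
    (hXL : 262144 * Real.log X ^ 36 ≤ X) (hXδ : 1 / (8 * δ) ≤ Real.log X) (hz : 2 ≤ z)
    (hK : 8 * K ≤ z) (hzX : (z : ℝ) ≤ Real.log X) (hW : (W : ℝ) ^ 2 ≤ X)
    (hco : ∀ p : ℕ, p.Prime → z < p → W.Coprime p) (b : Fin K → ZMod W) :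
    (((Sb X b).filter fun s => ¬ (|sing s - singP s z| ≤ 8 * δ * singP s z)).card : ℝ) ≤
      ((C₁ + 1) * (1 / δ ^ 2 + 1 / δ) + 1) / Real.log z * (Sb X b).card := by
  set L := Real.log X with hL
  have hX0 : (0 : ℝ) < X := by exact_mod_cast (show 0 < X by omega)
  have hL1 : 1 ≤ L := by
    rw [hL, Real.le_log_iff_exp_le hX0]
    have : (3 : ℝ) ≤ X := by exact_mod_cast hX3
    linarith [Real.exp_one_lt_d9]
  set R := √(X : ℝ) with hR
  have hR2 : R ^ 2 = X := Real.sq_sqrt hX0.le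
  have hR0 : 0 < R := Real.sqrt_pos.2 hX0
  have hRL : 512 * L ^ 18 ≤ R := by
    refine abs_le_of_sq_le_sq' ?_ hR0.le |>.2
    rw [hR2]
    have h1 : (512 * L ^ 18) ^ 2 = 262144 * L ^ 36 := by ring
    rw [h1]
    exact hXL
  have hWR : (W : ℝ) ≤ R := by
    refine abs_le_of_sq_le_sq' ?_ hR0.le |>.2
    rw [hR2]
    exact hW
  have hpw : ∀ a c : ℕ, a ≤ c → L ^ a ≤ L ^ c := fun a c h => pow_le_pow_right₀ hL1 h
  have hL0 : 0 < L := by linarith
  have hz2 : (2 : ℝ) ≤ z := by exact_mod_cast hz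
  have hlogz : 0 < Real.log z := Real.log_pos (by linarith)
  have hlogzL : Real.log z ≤ L := by
    refine (Real.log_le_self (by linarith)).trans hzX
  set Y := ⌈L ^ 4⌉₊ with hY
  have hY1 : L ^ 4 ≤ Y := Nat.le_ceil _
  have hY2 : (Y : ℝ) ≤ 2 * L ^ 4 := by
    have := (Nat.ceil_lt_add_one (show 0 ≤ L ^ 4 by positivity)).le
    have h1 : 1 ≤ L ^ 4 := one_le_pow₀ hL1
    linarith
  have hKr : (0 : ℝ) ≤ K := Nat.cast_nonneg _
  have hKL : 8 * (K : ℝ) ≤ L := by
    have : 8 * (K : ℝ) ≤ z := by exact_mod_cast hK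
    linarith
  have hzY : z ≤ Y := by
    have h1 : (z : ℝ) ≤ Y := by
      have := hpw 1 4 (by norm_num)
      rw [pow_one] at this
      linarith
    exact_mod_cast h1
  have hK2 : 8 * (K : ℝ) ^ 2 ≤ L ^ 2 / 8 := by nlinarith
  have hYK : 8 * K ^ 2 ≤ Y := by
    have h1 : 8 * (K : ℝ) ^ 2 ≤ Y := by
      have := hpw 2 4 (by norm_num)
      linarith [sq_nonneg L]
    exact_mod_cast h1
  have hYKL : 8 * (K : ℝ) ^ 2 * L ≤ L ^ 3 / 8 := by
    calc 8 * (K : ℝ) ^ 2 * L ≤ L ^ 2 / 8 * L := by gcongr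
      _ = L ^ 3 / 8 := by ring
  have hYKL' : 8 * (K : ℝ) ^ 2 * L ≤ Y := by
    have := hpw 3 4 (by norm_num)
    have h3 : 0 < L ^ 3 := by positivity
    linarith
  have hY0 : (0 : ℝ) < Y := lt_of_lt_of_le (by positivity) hY1
  have hYδ : 8 * (K : ℝ) ^ 2 * L / Y ≤ δ := by
    rw [div_le_iff₀ hY0]
    have h1 : 1 ≤ 8 * δ * L := by
      rw [div_le_iff₀ (by positivity)] at hXδ
      linarith
    have h2 : L ^ 3 / 8 ≤ δ * L ^ 4 := by
      have h3 : 0 < L ^ 3 := by positivity
      have h4 : L ^ 3 * 1 ≤ L ^ 3 * (8 * δ * L) := mul_le_mul_of_nonneg_left h1 h3.le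
      have h5 : L ^ 3 * (8 * δ * L) = 8 * (δ * L ^ 4) := by ring
      linarith
    have h3 : δ * L ^ 4 ≤ δ * Y := by gcongr
    linarith
  -- the error of VAR
  have hKL2 : (K : ℝ) + 1 ≤ 2 * L := by linarith
  have hW0 : (0 : ℝ) < W := by exact_mod_cast Nat.pos_of_ne_zero (NeZero.ne W)
  have hE : 16 * (K + 1) * (Y : ℝ) ^ 4 * W ≤ 512 * L ^ 17 * R := by
    calc 16 * ((K : ℝ) + 1) * (Y : ℝ) ^ 4 * W ≤ 16 * (2 * L) * (2 * L ^ 4) ^ 4 * R := by gcongr
      _ = 512 * L ^ 17 * R := by ring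
  have hEX : 16 * (K + 1) * (Y : ℝ) ^ 4 * W ≤ X := by
    refine hE.trans ?_
    rw [← hR2, sq]
    have := hpw 17 18 (by norm_num)
    gcongr
    linarith
  have hEL : 16 * (K + 1) * (Y : ℝ) ^ 4 * W / X ≤ 1 / Real.log z := by
    calc 16 * (K + 1) * (Y : ℝ) ^ 4 * W / X ≤ 512 * L ^ 17 * R / X := by gcongr
      _ = 512 * L ^ 17 / R := by
        rw [← hR2]
        field_simp
      _ ≤ 1 / L := by
        rw [div_le_div_iff₀ hR0 hL0]
        calc 512 * L ^ 17 * L = 512 * L ^ 18 := by ring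
          _ ≤ 1 * R := by linarith
      _ ≤ 1 / Real.log z := one_div_le_one_div_of_le hlogz hlogzL
  obtain ⟨v1, v2⟩ := var_gen hLM hC hSQ z X Y K hz hK hEX hco b
  set N : ℝ := ((Sb X b).card : ℝ) with hN
  have hN0 : 0 ≤ N := Nat.cast_nonneg _
  have hVE : (C₁ / Real.log z + 16 * (K + 1) * (Y : ℝ) ^ 4 * W / X) * N ≤
      (C₁ + 1) / Real.log z * N := by
    refine mul_le_mul_of_nonneg_right ?_ hN0
    rw [add_div]
    linarith
  set B1 := (Sb X b).filter fun s => ¬ Function.Injective s with hB1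
  set B2 := (Sb X b).filter fun s => δ < |∑ p ∈ (Ioc z Y).filter Nat.Prime, (loc s p - 1)| with hB2
  set B3 := (Sb X b).filter fun s => δ < ∑ p ∈ (Ioc z Y).filter Nat.Prime, (loc s p - 1) ^ 2 with hB3
  have hsub : (Sb X b).filter (fun s => ¬ (|sing s - singP s z| ≤ 8 * δ * singP s z)) ⊆
      B1 ∪ (B2 ∪ B3) := by
    intro s hs
    rw [mem_filter] at hs
    by_contra hcon
    rw [mem_union, mem_union, not_or, not_or, hB1, hB2, hB3, mem_filter, mem_filter,
      mem_filter] at hcon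
    obtain ⟨c1, c2, c3⟩ := hcon
    have c1' : Function.Injective s := by
      by_contra h
      exact c1 ⟨hs.1, h⟩
    have c2' : |∑ p ∈ (Ioc z Y).filter Nat.Prime, (loc s p - 1)| ≤ δ := by
      by_contra h
      exact c2 ⟨hs.1, not_le.1 h⟩
    have c3' : ∑ p ∈ (Ioc z Y).filter Nat.Prime, (loc s p - 1) ^ 2 ≤ δ := by
      by_contra h
      exact c3 ⟨hs.1, not_le.1 h⟩
    have hbd : ∀ i, 1 ≤ s i ∧ s i ≤ X := by
      intro i
      have h1 := hs.1
      unfold Sb at h1
      rw [Fintype.mem_piFinset] at h1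
      have h2 := h1 i
      unfold cls at h2
      exact mem_Icc.1 (mem_filter.1 h2).1
    exact hs.2 (good_case hFAR s hδ hzY hK hX3 hYK hYKL' hYδ hbd c1' c2' c3')
  have hb1 : (B1.card : ℝ) ≤ 1 / Real.log z * N := by
    have h2W : 2 * (W : ℝ) ≤ X := by
      rw [← hR2]
      have h1 : 1 ≤ L ^ 18 := one_le_pow₀ hL1
      nlinarith
    refine (noninj X K h2W b).trans (mul_le_mul_of_nonneg_right ?_ hN0)
    have hKL3 : (K : ℝ) ≤ L := by linarith
    calc (K : ℝ) ^ 2 * (2 * W / X) ≤ L ^ 2 * (2 * R / X) := by gcongr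
      _ = 2 * L ^ 2 / R := by
        rw [← hR2]
        field_simp
      _ ≤ 1 / L := by
        rw [div_le_div_iff₀ hR0 hL0]
        have := hpw 3 18 (by norm_num)
        have h1 : 0 < L ^ 18 := by positivity
        calc 2 * L ^ 2 * L = 2 * L ^ 3 := by ring
          _ ≤ 1 * R := by linarith
      _ ≤ 1 / Real.log z := one_div_le_one_div_of_le hlogz hlogzL
  have hb2 : (B2.card : ℝ) ≤ (C₁ + 1) / δ ^ 2 / Real.log z * N := by
    have h1 : (B2.card : ℝ) * δ ^ 2 ≤
        ∑ s ∈ Sb X b, (∑ p ∈ (Ioc z Y).filter Nat.Prime, (loc s p - 1)) ^ 2 := by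
      calc (B2.card : ℝ) * δ ^ 2 = ∑ _s ∈ B2, δ ^ 2 := by rw [sum_const, nsmul_eq_mul]
        _ ≤ ∑ s ∈ B2, (∑ p ∈ (Ioc z Y).filter Nat.Prime, (loc s p - 1)) ^ 2 := by
          refine sum_le_sum fun s hs => ?_
          rw [hB2, mem_filter] at hs
          rw [← sq_abs (∑ p ∈ (Ioc z Y).filter Nat.Prime, (loc s p - 1))]
          exact pow_le_pow_left₀ hδ0.le hs.2.le 2
        _ ≤ _ := sum_le_sum_of_subset_of_nonneg (filter_subset _ _) fun _ _ _ => sq_nonneg _
    have h2 := h1.trans (v1.trans hVE)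
    rw [← le_div_iff₀ (by positivity)] at h2
    refine h2.trans (le_of_eq ?_)
    field_simp
  have hb3 : (B3.card : ℝ) ≤ (C₁ + 1) / δ / Real.log z * N := by
    have h1 : (B3.card : ℝ) * δ ≤
        ∑ s ∈ Sb X b, ∑ p ∈ (Ioc z Y).filter Nat.Prime, (loc s p - 1) ^ 2 := by
      calc (B3.card : ℝ) * δ = ∑ _s ∈ B3, δ := by rw [sum_const, nsmul_eq_mul]
        _ ≤ ∑ s ∈ B3, ∑ p ∈ (Ioc z Y).filter Nat.Prime, (loc s p - 1) ^ 2 := by
          refine sum_le_sum fun s hs => ?_
          rw [hB3, mem_filter] at hs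
          exact hs.2.le
        _ ≤ _ := sum_le_sum_of_subset_of_nonneg (filter_subset _ _) fun _ _ _ =>
          sum_nonneg fun _ _ => sq_nonneg _
    have h2 := h1.trans (v2.trans hVE)
    rw [← le_div_iff₀ hδ0] at h2
    refine h2.trans (le_of_eq ?_)
    field_simp
  have hc : (((Sb X b).filter fun s => ¬ (|sing s - singP s z| ≤ 8 * δ * singP s z)).card : ℝ) ≤
      B1.card + (B2.card + B3.card) := by
    have h1 := card_le_card hsub
    have h2 := card_union_le B1 (B2 ∪ B3)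
    have h3 := card_union_le B2 B3
    exact_mod_cast (show _ ≤ B1.card + (B2.card + B3.card) by omega)
  calc _ ≤ (B1.card : ℝ) + (B2.card + B3.card) := hc
    _ ≤ 1 / Real.log z * N + ((C₁ + 1) / δ ^ 2 / Real.log z * N +
        (C₁ + 1) / δ / Real.log z * N) := by linarith
    _ = _ := by
      field_simp
      ring

theorem t_TAIL : S_TAIL := by
  intro _ hLM hSQ hFAR ε hε
  obtain ⟨C₁, hC₁, hSQ⟩ := hSQ
  set δ := min ε 1 / 8 with hδ
  have hδ0 : 0 < δ := by positivity
  have hδ1 : δ ≤ 1 / 8 := by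
    rw [hδ]
    have := min_le_right ε 1
    linarith
  have hδε : 8 * δ ≤ ε := by
    rw [hδ]
    have := min_le_left ε 1
    linarith
  have hev : ∀ᶠ x : ℝ in atTop, 262144 * Real.log x ^ 36 ≤ x := by
    have h1 := (Real.isLittleO_pow_log_id_atTop (n := 36)).def (c := 1 / 262144) (by norm_num)
    filter_upwards [h1, eventually_ge_atTop 1] with x hx hx1
    rw [Real.norm_eq_abs, Real.norm_eq_abs, id, abs_of_nonneg (by linarith : (0 : ℝ) ≤ x),
      abs_of_nonneg (pow_nonneg (Real.log_nonneg hx1) _)] at hx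
    linarith
  have hev2 : ∀ᶠ x : ℝ in atTop, 1 / (8 * δ) ≤ Real.log x :=
    Real.tendsto_log_atTop.eventually_ge_atTop _
  obtain ⟨X₀, hX₀⟩ := (tendsto_natCast_atTop_atTop.eventually (hev.and hev2)).exists_forall_of_atTop
  refine ⟨(C₁ + 1) * (1 / δ ^ 2 + 1 / δ) + 1, X₀ + 3, 2, by positivity, ?_⟩
  intro z X K hX hz hK hzX hW b
  have h1 := hX₀ X (by omega)
  have h2 := tail_gen hFAR hLM hC₁ hSQ hδ0 hδ1 z X K (by omega) h1.1 h1.2 hz hK hzX hW
    (fun p hp hzp => coprime_PW hp hzp) b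
  refine le_trans ?_ h2
  have h3 : (Sb X b).filter (fun s => ¬ (|sing s - singP s z| ≤ ε * singP s z)) ⊆
      (Sb X b).filter (fun s => ¬ (|sing s - singP s z| ≤ 8 * δ * singP s z)) := by
    intro s hs
    rw [mem_filter] at hs ⊢
    refine ⟨hs.1, fun h => hs.2 (h.trans ?_)⟩
    have h4 : 0 ≤ singP s z := by
      have h5 := (abs_nonneg _).trans h
      by_contra hneg
      push Not at hneg
      nlinarith
    gcongr
  exact_mod_cast card_le_card h3

end Pool.Agent.Q261.SZ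

theorem Pool.Agent.Q145.SZ.t_TAIL : Pool.Agent.Q145.SZ.S_TAIL := Pool.Agent.Q261.SZ.t_TAIL
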