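import Pool.Agent.Q145.SZ.Stm

/-!
# Nearly independent coordinates
-/

set_option autoImplicit false

namespace Pool.Agent.Q261.SZ

open Finset Filter
open Pool.Agent.Q145.SZ

theorem prod_close {K : ℕ} (r : Fin K → ℝ) {θ : ℝ} (hθ : 0 ≤ θ) (h : ∀ i, |r i - 1| ≤ θ)
    (hK : K * θ ≤ 1) : |∏ i, r i - 1| ≤ 2 * (K * θ) := by
  have h1 := Finset.norm_prod_one_add_sub_one_le (univ : Finset (Fin K)) (fun i => r i - 1)
  have h2 : ∏ i : Fin K, (1 + (r i - 1)) = ∏ i, r i := prod_congr rfl fun i _ => by ring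
  rw [h2, Real.norm_eq_abs] at h1
  have h3 : ∑ i : Fin K, ‖r i - 1‖ ≤ K * θ := by
    refine (sum_le_card_nsmul _ _ θ fun i _ => by rw [Real.norm_eq_abs]; exact h i).trans ?_
    rw [card_univ, Fintype.card_fin, nsmul_eq_mul]
  have h4 : Real.exp (K * θ) - 1 ≤ 2 * (K * θ) := by
    have h5 : 0 ≤ K * θ := by positivity
    have h6 := Real.abs_exp_sub_one_le (x := K * θ) (by rwa [abs_of_nonneg h5])
    rw [abs_of_nonneg h5] at h6
    exact (le_abs_self _).trans h6
  have h5 : Real.exp (∑ i : Fin K, ‖r i - 1‖) ≤ Real.exp (K * θ) := Real.exp_le_exp.2 h3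
  linarith

theorem cancel4 (P c Q : ℝ) (hP : P ≠ 0) (hQ : Q ≠ 0) : c = P / Q * (Q * c / P) := by
  field_simp

theorem den {Λ : Type} [DecidableEq Λ] {K : ℕ} (C : Fin K → Finset ℕ) (ℓ : ℕ → Λ) (L : Finset Λ)
    (T : ℝ) (hL : L.Nonempty) (hT : 4 * (K + 1) * (L.card : ℝ) ≤ T)
    (hC : ∀ i, ∀ s ∈ C i, ℓ s ∈ L)
    (hcnt : ∀ i, ∀ x ∈ L, |(((C i).filter fun s => ℓ s = x).card : ℝ) - T / L.card| ≤ 1)
    (g : (Fin K → Λ) → ℝ) (hg : ∀ x ∈ Fintype.piFinset (fun _ : Fin K => L), |g x| ≤ 1) :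
    |∑ s ∈ Fintype.piFinset C, g (fun i => ℓ (s i)) -
      ((Fintype.piFinset C).card : ℝ) / (L.card : ℝ) ^ K *
        ∑ x ∈ Fintype.piFinset (fun _ : Fin K => L), g x| ≤
      8 * K * L.card / T * (Fintype.piFinset C).card := by
  set q : ℝ := (L.card : ℝ) with hq
  have hq1 : 1 ≤ q := by
    rw [hq]
    exact_mod_cast hL.card_pos
  have hT0 : 0 < T := by
    refine lt_of_lt_of_le ?_ hT
    positivity
  have hK0 : (0 : ℝ) ≤ K := Nat.cast_nonneg _
  have hTq : 2 * q ≤ T := by nlinarith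
  -- the sizes
  have hcard : ∀ i, |((C i).card : ℝ) - T| ≤ q := by
    intro i
    have h1 : (C i).card = ∑ x ∈ L, ((C i).filter fun s => ℓ s = x).card :=
      card_eq_sum_card_fiberwise fun s hs => hC i s hs
    have h2 : ((C i).card : ℝ) - T = ∑ x ∈ L, ((((C i).filter fun s => ℓ s = x).card : ℝ) -
        T / L.card) := by
      rw [h1, sum_sub_distrib, sum_const, nsmul_eq_mul, ← hq, mul_div_cancel₀ _ (by positivity)]
      push_cast
      rfl
    rw [h2]
    refine (abs_sum_le_sum_abs _ _).trans ((sum_le_card_nsmul _ _ 1 (hcnt i)).trans ?_)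
    rw [nsmul_eq_mul, mul_one]
  have hpos : ∀ i, T / 2 ≤ ((C i).card : ℝ) := by
    intro i
    have := (abs_le.1 (hcard i)).1
    linarith
  have hpos' : ∀ i, (0 : ℝ) < (C i).card := fun i => lt_of_lt_of_le (by positivity) (hpos i)
  -- the fibres
  have hfib : ∑ s ∈ Fintype.piFinset C, g (fun i => ℓ (s i)) =
      ∑ x ∈ Fintype.piFinset (fun _ : Fin K => L),
        g x * ∏ i, (((C i).filter fun s => ℓ s = x i).card : ℝ) := by
    have h1 : ∀ s ∈ Fintype.piFinset C, (fun i => ℓ (s i)) ∈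
        Fintype.piFinset (fun _ : Fin K => L) := by
      intro s hs
      rw [Fintype.mem_piFinset] at hs ⊢
      exact fun i => hC i _ (hs i)
    rw [← sum_fiberwise_of_maps_to h1]
    refine sum_congr rfl fun x _ => ?_
    have h2 : (Fintype.piFinset C).filter (fun s => (fun i => ℓ (s i)) = x) =
        Fintype.piFinset fun i => (C i).filter fun s => ℓ s = x i := by
      ext s
      simp only [mem_filter, Fintype.mem_piFinset, funext_iff, forall_and]
    have h3 : ∀ s ∈ (Fintype.piFinset C).filter (fun s => (fun i => ℓ (s i)) = x),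
        g (fun i => ℓ (s i)) = g x := fun s hs => by rw [(mem_filter.1 hs).2]
    rw [sum_congr rfl h3, sum_const, h2, Fintype.card_piFinset, nsmul_eq_mul, mul_comm]
    push_cast
    rfl
  have hden : ∀ x ∈ Fintype.piFinset (fun _ : Fin K => L),
      |∏ i, (((C i).filter fun s => ℓ s = x i).card : ℝ) -
        ((Fintype.piFinset C).card : ℝ) / q ^ K| ≤
      ((Fintype.piFinset C).card : ℝ) / q ^ K * (8 * K * q / T) := by
    intro x hx
    rw [Fintype.mem_piFinset] at hx
    set r : Fin K → ℝ := fun i => q * (((C i).filter fun s => ℓ s = x i).card : ℝ) / (C i).card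
      with hr
    have h1 : ∀ i, |r i - 1| ≤ 4 * q / T := by
      intro i
      have h2 : r i - 1 = (q * ((((C i).filter fun s => ℓ s = x i).card : ℝ) - T / q) -
          ((C i).card - T)) / (C i).card := by
        rw [hr]
        have := hpos' i
        field_simp
        ring
      rw [h2, abs_div, abs_of_pos (hpos' i)]
      have h3 : |q * ((((C i).filter fun s => ℓ s = x i).card : ℝ) - T / q) -
          ((C i).card - T)| ≤ 2 * q := by
        refine (abs_sub _ _).trans ?_
        rw [abs_mul, abs_of_pos (by linarith : (0 : ℝ) < q)]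
        have h4 := hcnt i (x i) (hx i)
        have h5 := hcard i
        nlinarith
      calc _ ≤ 2 * q / (T / 2) := div_le_div₀ (by positivity) h3 (by positivity) (hpos i)
        _ = 4 * q / T := by
          field_simp
          ring
    have h2 := prod_close r (by positivity) h1 (by
      rw [mul_div_assoc', div_le_one hT0]
      nlinarith)
    have h3 : ∏ i, (((C i).filter fun s => ℓ s = x i).card : ℝ) =
        ((Fintype.piFinset C).card : ℝ) / q ^ K * ∏ i, r i := by
      rw [hr, Fintype.card_piFinset]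
      simp only [prod_div_distrib, prod_mul_distrib, prod_const, card_univ, Fintype.card_fin]
      push_cast
      have h4 : ∏ i : Fin K, ((C i).card : ℝ) ≠ 0 := prod_ne_zero_iff.2 fun i _ => (hpos' i).ne'
      have h5 : q ^ K ≠ 0 := by positivity
      exact cancel4 _ _ _ h4 h5
    have h4 : (0 : ℝ) ≤ ((Fintype.piFinset C).card : ℝ) / q ^ K := by positivity
    have h5 : ((Fintype.piFinset C).card : ℝ) / q ^ K * ∏ i, r i -
        ((Fintype.piFinset C).card : ℝ) / q ^ K =
        ((Fintype.piFinset C).card : ℝ) / q ^ K * (∏ i, r i - 1) := by ring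
    rw [h3, h5, abs_mul, abs_of_nonneg h4]
    refine mul_le_mul_of_nonneg_left (h2.trans (le_of_eq ?_)) h4
    ring
  have hcardL : ((Fintype.piFinset (fun _ : Fin K => L)).card : ℝ) = q ^ K := by
    rw [Fintype.card_piFinset, prod_const, card_univ, Fintype.card_fin]
    push_cast
    rfl
  rw [hfib, mul_sum, ← sum_sub_distrib]
  refine (abs_sum_le_sum_abs _ _).trans ?_
  have hfin : ∀ x ∈ Fintype.piFinset (fun _ : Fin K => L),
      |g x * ∏ i, (((C i).filter fun s => ℓ s = x i).card : ℝ) -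
        ((Fintype.piFinset C).card : ℝ) / q ^ K * g x| ≤
      ((Fintype.piFinset C).card : ℝ) / q ^ K * (8 * K * q / T) := by
    intro x hx
    rw [mul_comm _ (g x), ← mul_sub, abs_mul]
    refine (mul_le_mul_of_nonneg_right (hg x hx) (abs_nonneg _)).trans ?_
    rw [one_mul]
    exact hden x hx
  refine (sum_le_card_nsmul _ _ _ hfin).trans ?_
  rw [nsmul_eq_mul, hcardL]
  have h5 : q ^ K ≠ 0 := by positivity
  refine le_of_eq ?_
  field_simp

theorem cnt_mod (X M c : ℕ) (hM : 0 < M) :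
    |(((Icc 1 X).filter fun s => s ≡ c [MOD M]).card : ℝ) - X / M| ≤ 1 := by
  have h1 := Nat.Ioc_filter_modEq_card 0 X hM c
  have h2 : (Icc 1 X).filter (fun s => s ≡ c [MOD M]) = (Ioc 0 X).filter (· ≡ c [MOD M]) := rfl
  set A : ℤ := ⌊((X : ℚ) - c) / M⌋ with hA
  set B : ℤ := ⌊(((0 : ℕ) : ℚ) - c) / M⌋ with hB
  have hM' : (0 : ℚ) < M := by exact_mod_cast hM
  have a1 := Int.floor_le (((X : ℚ) - c) / M)
  have a2 := Int.lt_floor_add_one (((X : ℚ) - c) / M)
  have b1 := Int.floor_le ((((0 : ℕ) : ℚ) - c) / M)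
  have b2 := Int.lt_floor_add_one ((((0 : ℕ) : ℚ) - c) / M)
  rw [← hA] at a1 a2
  rw [← hB] at b1 b2
  have e1 : ((X : ℚ) - c) / M = X / M - c / M := by ring
  have e2 : ((((0 : ℕ) : ℚ)) - c) / M = - (c / M) := by push_cast; ring
  rw [e1] at a1 a2
  rw [e2] at b1 b2
  have c1 : (A : ℚ) - B ≤ X / M + 1 := by linarith
  have c2 : (X : ℚ) / M - 1 ≤ (A : ℚ) - B := by linarith
  have c3 : 0 ≤ A - B := by
    have : (-1 : ℚ) < (A : ℚ) - B := by
      have h3 : (0 : ℚ) ≤ X / M := by positivity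
      have : (X : ℚ) / M - 1 < (A : ℚ) - B := by linarith
      linarith
    have : (-1 : ℤ) < A - B := by exact_mod_cast this
    omega
  rw [max_eq_left c3] at h1
  have h3 : (((Icc 1 X).filter fun s => s ≡ c [MOD M]).card : ℚ) = (A : ℚ) - B := by
    rw [h2]
    exact_mod_cast h1
  have h4 : |(((Icc 1 X).filter fun s => s ≡ c [MOD M]).card : ℚ) - X / M| ≤ 1 := by
    rw [h3, abs_le]
    constructor <;> linarith
  have h5 := (Rat.cast_le (K := ℝ)).2 h4
  push_cast at h5
  exact h5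

theorem cnt_cls {W : ℕ} [NeZero W] (X m c : ℕ) (hm : 0 < m) (hW : W.Coprime m) (β : ZMod W) :
    |(((cls X β).filter fun s => s ≡ c [MOD m]).card : ℝ) - (X : ℝ) / W / m| ≤ 1 := by
  have hW0 : 0 < W := Nat.pos_of_ne_zero (NeZero.ne W)
  obtain ⟨d, hd1, hd2⟩ := Nat.chineseRemainder hW β.val c
  have h1 := cnt_mod X (W * m) d (Nat.mul_pos hW0 hm)
  have h2 : (cls X β).filter (fun s => s ≡ c [MOD m]) = (Icc 1 X).filter fun s => s ≡ d [MOD (W * m)] := by
    unfold cls
    rw [filter_filter]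
    refine filter_congr fun s _ => ?_
    rw [← Nat.modEq_and_modEq_iff_modEq_mul hW]
    have h3 : (s : ZMod W) = β ↔ s ≡ d [MOD W] := by
      rw [← ZMod.natCast_eq_natCast_iff]
      have h4 : (d : ZMod W) = β := by
        have := (ZMod.natCast_eq_natCast_iff _ _ _).2 hd1
        rw [this, ZMod.natCast_val, ZMod.cast_id]
      rw [h4]
    rw [h3]
    constructor
    · rintro ⟨h4, h5⟩
      exact ⟨h4, h5.trans hd2.symm⟩
    · rintro ⟨h4, h5⟩
      exact ⟨h4, h5.trans hd2⟩
  rw [h2]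
  push_cast at h1
  rwa [div_div]

end Pool.Agent.Q261.SZ
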