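import Pool.Agent.Q145.SZ.Stm

/-!
# Project SZ: the average of the powers of the pair singular series (combinatorial part of HS)
-/

set_option autoImplicit false

namespace Pool.Agent.Q261.SZ

open Finset Filter
open Pool.Agent.Q145.SZ

/-- `((p - 1)/(p - 2))^K - 1` -/
noncomputable def gg (K p : ℕ) : ℝ := (((p : ℝ) - 1) / ((p : ℝ) - 2)) ^ K - 1

/-- `1 - 1/(p-1)²` -/
noncomputable def cc (p : ℕ) : ℝ := 1 - 1 / ((p : ℝ) - 1) ^ 2

theorem cc_pos {p : ℕ} (hp : 3 ≤ p) : 0 < cc p := by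
  have h : (3 : ℝ) ≤ p := by exact_mod_cast hp
  unfold cc
  rw [sub_pos, div_lt_one (by nlinarith)]
  nlinarith

theorem gg_nonneg {K p : ℕ} (hp : 3 ≤ p) : 0 ≤ gg K p := by
  have h : (3 : ℝ) ≤ p := by exact_mod_cast hp
  unfold gg
  have h1 : 1 ≤ ((p : ℝ) - 1) / ((p : ℝ) - 2) := by
    rw [one_le_div (by linarith)]
    linarith
  linarith [one_le_pow₀ h1 (n := K)]

theorem factor {K p h : ℕ} (hp : 3 ≤ p) :
    (if p ∣ h then (p : ℝ) / (p - 1) else 1 - 1 / ((p : ℝ) - 1) ^ 2) ^ K =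
      cc p ^ K * (1 + if p ∣ h then gg K p else 0) := by
  have h3 : (3 : ℝ) ≤ p := by exact_mod_cast hp
  split_ifs with hd
  · unfold gg
    rw [add_sub_cancel, ← mul_pow]
    congr 1
    unfold cc
    have e1 : (p : ℝ) - 1 ≠ 0 := by linarith
    have e2 : (p : ℝ) - 2 ≠ 0 := by linarith
    field_simp
    ring
  · rw [add_zero, mul_one]
    rfl

theorem dvd_prod_iff (E : Finset ℕ) (hE : ∀ p ∈ E, p.Prime) (h : ℕ) :
    (∏ p ∈ E, p) ∣ h ↔ ∀ p ∈ E, p ∣ h := by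
  constructor
  · intro hd p hp
    exact (dvd_prod_of_mem _ hp).trans hd
  · intro hd
    exact prod_primes_dvd h (fun p hp => (hE p hp).prime) hd

theorem SP_pow (z X K h : ℕ) (hz : 2 ≤ z) :
    SP z X h ^ K = (∏ p ∈ (Ioc z X).filter Nat.Prime, cc p) ^ K *
      ∑ E ∈ ((Ioc z X).filter Nat.Prime).powerset,
        if (∏ p ∈ E, p) ∣ h then ∏ p ∈ E, gg K p else 0 := by
  have hP : ∀ p ∈ (Ioc z X).filter Nat.Prime, 3 ≤ p := by
    intro p hp
    rw [mem_filter, mem_Ioc] at hp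
    omega
  unfold SP
  rw [← prod_pow, ← prod_pow]
  have h1 : ∏ p ∈ (Ioc z X).filter Nat.Prime,
      (if p ∣ h then (p : ℝ) / (p - 1) else 1 - 1 / ((p : ℝ) - 1) ^ 2) ^ K =
      (∏ p ∈ (Ioc z X).filter Nat.Prime, cc p ^ K) *
        ∏ p ∈ (Ioc z X).filter Nat.Prime, (1 + if p ∣ h then gg K p else 0) := by
    rw [← prod_mul_distrib]
    exact prod_congr rfl fun p hp => factor (hP p hp)
  rw [h1, prod_one_add]
  congr 1
  refine sum_congr rfl fun E hE => ?_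
  rw [mem_powerset] at hE
  have hEp : ∀ p ∈ E, p.Prime := fun p hp => (mem_filter.1 (hE hp)).2
  split_ifs with hd
  · rw [dvd_prod_iff E hEp] at hd
    exact prod_congr rfl fun p hp => if_pos (hd p hp)
  · rw [dvd_prod_iff E hEp] at hd
    push Not at hd
    obtain ⟨p, hp, hpd⟩ := hd
    exact prod_eq_zero hp (if_neg hpd)

theorem cnt_le (X M : ℕ) (hM : 0 < M) (S : Finset ℕ) (hS : S ⊆ Ioc X (2 * X))
    (h : ∀ a ∈ S, ∀ b ∈ S, a ≡ b [MOD M]) : (S.card : ℝ) ≤ X / M + 1 := by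
  rcases S.eq_empty_or_nonempty with h0 | ⟨c, hc⟩
  · rw [h0, card_empty, Nat.cast_zero]
    positivity
  have h1 := Nat.Ioc_filter_modEq_card X (2 * X) hM c
  have h2 : S ⊆ (Ioc X (2 * X)).filter (· ≡ c [MOD M]) := fun a ha =>
    mem_filter.2 ⟨hS ha, h a ha c hc⟩
  set A : ℤ := ⌊(((2 * X : ℕ) : ℚ) - c) / M⌋ with hA
  set B : ℤ := ⌊((X : ℚ) - c) / M⌋ with hB
  have hM' : (0 : ℚ) < M := by exact_mod_cast hM
  have a1 := Int.floor_le ((((2 * X : ℕ) : ℚ) - c) / M)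
  have b2 := Int.lt_floor_add_one (((X : ℚ) - c) / M)
  rw [← hA] at a1
  rw [← hB] at b2
  have e1 : (((2 * X : ℕ) : ℚ) - c) / M = X / M + (X - c) / M := by
    push_cast
    ring
  rw [e1] at a1
  have c1 : (A : ℚ) - B ≤ X / M + 1 := by linarith
  have h3 : (((Ioc X (2 * X)).filter (· ≡ c [MOD M])).card : ℤ) = max (A - B) 0 := h1
  have h4 : (((Ioc X (2 * X)).filter (· ≡ c [MOD M])).card : ℚ) ≤ X / M + 1 := by
    have h5 : (((Ioc X (2 * X)).filter (· ≡ c [MOD M])).card : ℚ) = max ((A : ℚ) - B) 0 := by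
      exact_mod_cast h3
    rw [h5]
    refine max_le c1 (by positivity)
  have h6 := (Rat.cast_le (K := ℝ)).2 h4
  push_cast at h6
  refine le_trans ?_ h6
  exact_mod_cast card_le_card h2

theorem dvd_dst {e n m : ℕ} : e ∣ dst n m ↔ n ≡ m [MOD e] := by
  unfold dst
  rcases le_total n m with h | h
  · rw [Nat.sub_eq_zero_of_le h, zero_add, Nat.modEq_iff_dvd' h]
  · rw [Nat.sub_eq_zero_of_le h, add_zero]
    constructor
    · intro hd
      exact ((Nat.modEq_iff_dvd' h).2 hd).symm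
    · intro hd
      exact (Nat.modEq_iff_dvd' h).1 hd.symm

theorem inner {W : ℕ} [NeZero W] (z X K : ℕ) (hz : 2 ≤ z)
    (hco : ∀ p : ℕ, p.Prime → z < p → W.Coprime p) (d : ZMod W) (n : ℕ) :
    ∑ m ∈ (Ioc X (2 * X)).filter (fun m : ℕ => (m : ZMod W) = d ∧ m ≠ n), SP z X (dst n m) ^ K ≤
      (∏ p ∈ (Ioc z X).filter Nat.Prime, cc p) ^ K *
        ((X : ℝ) / W * ∏ p ∈ (Ioc z X).filter Nat.Prime, (1 + gg K p / p) +
          ∏ p ∈ (Ioc z X).filter Nat.Prime, (1 + gg K p)) := by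
  classical
  set P := (Ioc z X).filter Nat.Prime with hP
  have hPm : ∀ p ∈ P, p.Prime ∧ z < p := by
    intro p hp
    rw [hP, mem_filter, mem_Ioc] at hp
    exact ⟨hp.2, hp.1.1⟩
  have hc0 : 0 ≤ (∏ p ∈ P, cc p) ^ K :=
    pow_nonneg (prod_nonneg fun p hp => (cc_pos (by have := (hPm p hp).2; omega)).le) K
  have hg0 : ∀ E ∈ P.powerset, 0 ≤ ∏ p ∈ E, gg K p := fun E hE =>
    prod_nonneg fun p hp => gg_nonneg (by have := (hPm p (mem_powerset.1 hE hp)).2; omega)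
  simp only [SP_pow z X K _ hz]
  rw [← hP, ← mul_sum]
  refine mul_le_mul_of_nonneg_left ?_ hc0
  rw [sum_comm, prod_one_add, prod_one_add, mul_sum, ← sum_add_distrib]
  refine sum_le_sum fun E hE => ?_
  have hEp : ∀ p ∈ E, p.Prime ∧ z < p := fun p hp => hPm p (mem_powerset.1 hE hp)
  set e := ∏ p ∈ E, p with he
  have he0 : 0 < e := prod_pos fun p hp => (hEp p hp).1.pos
  have hWe : W.Coprime e := Nat.Coprime.prod_right fun p hp => hco p (hEp p hp).1 (hEp p hp).2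
  have hW0 : 0 < W := Nat.pos_of_ne_zero (NeZero.ne W)
  have h1 : ∑ m ∈ (Ioc X (2 * X)).filter (fun m : ℕ => (m : ZMod W) = d ∧ m ≠ n),
      (if e ∣ dst n m then ∏ p ∈ E, gg K p else 0) =
      ((((Ioc X (2 * X)).filter (fun m : ℕ => (m : ZMod W) = d ∧ m ≠ n)).filter
        fun m => e ∣ dst n m).card : ℝ) * ∏ p ∈ E, gg K p := by
    rw [← sum_filter, sum_const, nsmul_eq_mul]
  rw [h1]
  have h2 : ((((Ioc X (2 * X)).filter (fun m : ℕ => (m : ZMod W) = d ∧ m ≠ n)).filter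
        fun m => e ∣ dst n m).card : ℝ) ≤ X / (W * e : ℕ) + 1 := by
    refine cnt_le X (W * e) (Nat.mul_pos hW0 he0) _
      ((filter_subset _ _).trans (filter_subset _ _)) fun a ha b hb => ?_
    rw [mem_filter, mem_filter, dvd_dst] at ha hb
    rw [← Nat.modEq_and_modEq_iff_modEq_mul hWe]
    refine ⟨?_, ha.2.symm.trans hb.2⟩
    rw [← ZMod.natCast_eq_natCast_iff, ha.1.2.1, hb.1.2.1]
  have h3 : ∏ p ∈ E, gg K p / (p : ℝ) = (∏ p ∈ E, gg K p) / (e : ℝ) := by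
    rw [prod_div_distrib, he]
    push_cast
    rfl
  rw [h3]
  calc _ ≤ ((X : ℝ) / (W * e : ℕ) + 1) * ∏ p ∈ E, gg K p :=
        mul_le_mul_of_nonneg_right h2 (hg0 E hE)
    _ = _ := by
      have hWr : (W : ℝ) ≠ 0 := by exact_mod_cast hW0.ne'
      have her : (e : ℝ) ≠ 0 := by exact_mod_cast he0.ne'
      push_cast
      field_simp

theorem double {W : ℕ} [NeZero W] (z X K : ℕ) (hz : 2 ≤ z)
    (hco : ∀ p : ℕ, p.Prime → z < p → W.Coprime p) (c d : ZMod W) :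
    ∑ n ∈ (Ioc X (2 * X)).filter (fun n : ℕ => (n : ZMod W) = c),
      ∑ m ∈ (Ioc X (2 * X)).filter (fun m : ℕ => (m : ZMod W) = d ∧ m ≠ n),
        SP z X (dst n m) ^ K ≤
      ((X : ℝ) / W + 1) * ((∏ p ∈ (Ioc z X).filter Nat.Prime, cc p) ^ K *
        ((X : ℝ) / W * ∏ p ∈ (Ioc z X).filter Nat.Prime, (1 + gg K p / p) +
          ∏ p ∈ (Ioc z X).filter Nat.Prime, (1 + gg K p))) := by
  have hW0 : 0 < W := Nat.pos_of_ne_zero (NeZero.ne W)
  refine (sum_le_card_nsmul _ _ _ fun n _ => inner z X K hz hco d n).trans ?_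
  rw [nsmul_eq_mul]
  refine mul_le_mul_of_nonneg_right ?_ ?_
  · refine cnt_le X W hW0 _ (filter_subset _ _) fun a ha b hb => ?_
    rw [mem_filter] at ha hb
    rw [← ZMod.natCast_eq_natCast_iff, ha.2, hb.2]
  · have hPm : ∀ p ∈ (Ioc z X).filter Nat.Prime, 3 ≤ p := by
      intro p hp
      rw [mem_filter, mem_Ioc] at hp
      omega
    have h1 : 0 ≤ (∏ p ∈ (Ioc z X).filter Nat.Prime, cc p) ^ K :=
      pow_nonneg (prod_nonneg fun p hp => (cc_pos (hPm p hp)).le) K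
    have h2 : 0 ≤ ∏ p ∈ (Ioc z X).filter Nat.Prime, (1 + gg K p / p) :=
      prod_nonneg fun p hp => by
        have := gg_nonneg (K := K) (hPm p hp)
        positivity
    have h3 : 0 ≤ ∏ p ∈ (Ioc z X).filter Nat.Prime, (1 + gg K p) :=
      prod_nonneg fun p hp => by
        have := gg_nonneg (K := K) (hPm p hp)
        positivity
    positivity

end Pool.Agent.Q261.SZ
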